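import Mathlib
import Pool.Agent.Helper29.QP.Defs
import Pool.Agent.Helper79.QP.LemE
import Pool.Agent.Helper91.QP.ShiftSpace

/-!
# QP-T2: existence of the finite dimensional module with rank inequality
-/

open MonoidAlgebra Module

universe u

namespace Pool.Agent.Helper91.QP

open Pool.Agent.Helper29.QP
open Pool.Agent.Helper79.QP (suppSub lemE)

variable {K : Type u} [Field K] {X : Type}

/-- the anti-involution, as a linear map -/
noncomputable def st : GA K X →ₗ[K] GA K X :=
  (mapDomainLinearEquiv K K (Equiv.inv (FreeGroup X))).toLinearMap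

theorem st_coeff (a : GA K X) (g : FreeGroup X) : (st a).coeff g = a.coeff g⁻¹ := rfl

theorem st_st (a : GA K X) : st (st a) = a := by
  ext g
  rw [st_coeff, st_coeff, inv_inv]

theorem st_one : st (1 : GA K X) = 1 := by
  rw [MonoidAlgebra.one_def]
  unfold st
  simp

theorem st_mul_el (a : GA K X) (x : FreeGroup X) : st (a * el K x) = el K x⁻¹ * st a := by
  ext g
  rw [st_coeff, coeff_mul_single_apply, coeff_single_mul_apply, st_coeff, mul_one, one_mul,
    inv_inv, mul_inv_rev]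

theorem actA_add {U : Type u} [AddCommGroup U] [Module K U]
    (θ : FreeGroup X →* (U ≃ₗ[K] U)) (c : GA K X →ₗ[K] U) (T : Set (FreeGroup X)) (n : U)
    (hn : ∀ τ ∈ T, θ τ (c (el K τ)) = n) (a : GA K X) (ha : SuppIn T (st a)) :
    actA θ a n = c (st a) := by
  have h1 : st a = ∑ g ∈ a.coeff.support, a.coeff g • el K g⁻¹ := by
    have h2 : a = ∑ g ∈ a.coeff.support, a.coeff g • el K g := by
      have h3 := (MonoidAlgebra.basis (FreeGroup X) K).linearCombination_repr a
      rw [Finsupp.linearCombination_apply] at h3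
      conv_lhs => rw [← h3]
      refine Finset.sum_congr rfl fun g _ => ?_
      simp only [MonoidAlgebra.basis_apply]
      rfl
    conv_lhs => rw [h2]
    rw [map_sum]
    refine Finset.sum_congr rfl fun g _ => ?_
    rw [map_smul]
    congr 1
    unfold st
    simp
  rw [actA, Finsupp.sum, h1, map_sum]
  refine Finset.sum_congr rfl fun g hg => ?_
  rw [map_smul]
  congr 1
  have hgT : g⁻¹ ∈ T := ha g⁻¹ (by
    rw [st_coeff, inv_inv]
    exact Finsupp.mem_support_iff.1 hg)
  have h3 := hn g⁻¹ hgT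
  rw [← h3, ← LinearEquiv.mul_apply, ← map_mul, mul_inv_cancel, map_one]
  rfl

theorem exists_module [Fintype X] {m : ℕ} (f : Fin m → GA K X)
    (hf : ∀ g : Fin m → GA K X, ∑ i, g i * f i ≠ 1)
    (T0 : Finset (FreeGroup X)) (h1 : 1 ∈ T0) :
    ∃ (U : Type u) (_ : AddCommGroup U) (_ : Module K U) (_ : FiniteDimensional K U)
      (θ : FreeGroup X →* (U ≃ₗ[K] U)) (n : U), n ≠ 0 ∧ (∀ i, actA θ (f i) n = 0) ∧
      ∀ Z : X → Finset (FreeGroup X), (∀ x, ∀ τ ∈ Z x, τ ∈ T0 ∧ τ * FreeGroup.of x ∈ T0) →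
        1 + ∑ x, finrank K (Submodule.span K ((fun τ => θ τ⁻¹ n) '' (Z x : Set (FreeGroup X)))) ≤
          m + finrank K (Submodule.span K ((fun τ => θ τ⁻¹ n) '' (T0 : Set (FreeGroup X)))) := by
  classical
  obtain ⟨T, hTS, hPC⟩ := exists_PC
    (T0 ∪ Finset.univ.biUnion fun i => (f i).coeff.support.image fun g => g⁻¹)
  have hT0 : T0 ⊆ T := Finset.subset_union_left.trans hTS
  have hfs : ∀ i, st (f i) ∈ suppSub (K := K) (T : Set (FreeGroup X)) := by
    intro i g hg
    rw [st_coeff] at hg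
    refine Finset.mem_coe.2 (hTS (Finset.mem_union_right _ (Finset.mem_biUnion.2
      ⟨i, Finset.mem_univ _, Finset.mem_image.2 ⟨g⁻¹, Finsupp.mem_support_iff.2 hg, inv_inv g⟩⟩)))
  -- the left ideal
  set J0 : Submodule (GA K X) (GA K X) := Submodule.span (GA K X) (Set.range f) with hJ0
  set J : Submodule K (GA K X) := (J0.restrictScalars K).comap st with hJ
  have hJmem : ∀ ρ, ρ ∈ J ↔ st ρ ∈ J0 := fun ρ => Iff.rfl
  have hfJ : ∀ i, st (f i) ∈ J := by
    intro i
    rw [hJmem, st_st]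
    exact Submodule.subset_span ⟨i, rfl⟩
  have hJx : ∀ (x : X) (ρ : GA K X), ρ ∈ J ↔ ρ * el K (FreeGroup.of x) ∈ J := by
    intro x ρ
    rw [hJmem, hJmem, st_mul_el]
    constructor
    · intro h
      exact J0.smul_mem (el K (FreeGroup.of x)⁻¹) h
    · intro h
      have h2 := J0.smul_mem (el K (FreeGroup.of x)) h
      rw [smul_eq_mul, ← mul_assoc, single_mul_single, mul_inv_cancel, mul_one,
        ← MonoidAlgebra.one_def, one_mul] at h2
      exact h2
  have h1J : (1 : GA K X) ∉ J := by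
    rw [hJmem, st_one, hJ0, Submodule.mem_span_range_iff_exists_fun]
    rintro ⟨g, hg⟩
    exact hf g hg
  obtain ⟨R, hRW, hfR, hRx, h1R, hRdim⟩ := exists_R (fun i => st (f i)) T hfs J hfJ hJx h1J
  set W := suppSub (K := K) (T : Set (FreeGroup X)) with hW
  set E : X → Finset (FreeGroup X) := fun x => T.filter fun τ => τ * FreeGroup.of x ∈ T with hE
  -- the quotient
  set U : Type u := W ⧸ R.comap W.subtype with hU
  obtain ⟨c, hc⟩ := LinearMap.exists_extend (R.comap W.subtype).mkQ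
  have hcW : ∀ ρ (h : ρ ∈ W), c ρ = (R.comap W.subtype).mkQ ⟨ρ, h⟩ := fun ρ h =>
    LinearMap.congr_fun hc ⟨ρ, h⟩
  have hcker : ∀ ρ, ρ ∈ W → (c ρ = 0 ↔ ρ ∈ R) := by
    intro ρ h
    rw [hcW ρ h, Submodule.mkQ_apply, Submodule.Quotient.mk_eq_zero]
    rfl
  have hcW' : ∀ (x : X) (ρ : GA K X), SuppIn (T : Set (FreeGroup X)) ρ →
      SuppIn (T : Set (FreeGroup X)) (ρ * el K (FreeGroup.of x)) →
      (c ρ = 0 ↔ c (ρ * el K (FreeGroup.of x)) = 0) := by
    intro x ρ h2 h3
    rw [hcker ρ h2, hcker _ h3]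
    exact hRx x ρ h2 h3
  obtain ⟨θ, hθ1, hθ2⟩ := lemE (T : Set (FreeGroup X)) hPC c hcW'
  have h1T : (1 : FreeGroup X) ∈ T := hT0 h1
  have h1W : (1 : GA K X) ∈ W := by
    rw [MonoidAlgebra.one_def]
    exact el_mem_suppSub (T := (T : Set (FreeGroup X))) h1T
  refine ⟨U, inferInstance, inferInstance, inferInstance, θ, c 1, ?_, ?_, ?_⟩
  · rw [Ne, hcker 1 h1W]
    exact h1R
  · intro i
    rw [actA_add θ c (T : Set (FreeGroup X)) (c 1) hθ2 (f i) (hfs i), hcker _ (hfs i)]
    exact hfR i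
  intro Z hZ
  have hvec : ∀ τ ∈ T, θ τ⁻¹ (c 1) = c (el K τ) := by
    intro τ hτ
    rw [← hθ2 τ hτ, ← LinearEquiv.mul_apply, ← map_mul, inv_mul_cancel, map_one]
    rfl
  have hspan : ∀ S : Finset (FreeGroup X), S ⊆ T →
      Submodule.span K ((fun τ => θ τ⁻¹ (c 1)) '' (S : Set (FreeGroup X))) =
      Submodule.span K ((fun τ => c (el K τ)) '' (S : Set (FreeGroup X))) := by
    intro S hS
    congr 1
    refine Set.image_congr fun τ hτ => hvec τ (hS hτ)
  have hZT0 : ∀ x, Z x ⊆ T0 := fun x τ hτ => (hZ x τ hτ).1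
  have hZE : ∀ x, Z x ⊆ E x := fun x τ hτ =>
    Finset.mem_filter.2 ⟨hT0 (hZ x τ hτ).1, hT0 (hZ x τ hτ).2⟩
  set Q : Finset (FreeGroup X) → Submodule K U := fun S =>
    Submodule.span K ((fun τ => c (el K τ)) '' (S : Set (FreeGroup X))) with hQ
  have hQmap : ∀ S : Finset (FreeGroup X), Q S = (suppSub (K := K) (S : Set (FreeGroup X))).map c := by
    intro S
    rw [suppSub_eq_span, Submodule.map_span, ← Set.image_comp]
    rfl
  have hQmono : ∀ {S S' : Finset (FreeGroup X)}, S ⊆ S' → Q S ≤ Q S' := fun h =>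
    Submodule.span_mono (Set.image_mono h)
  rw [hspan T0 hT0]
  have hsum : ∑ x, finrank K (Submodule.span K ((fun τ => θ τ⁻¹ (c 1)) '' (Z x : Set (FreeGroup X)))) =
      ∑ x, finrank K (Q (Z x)) := by
    refine Finset.sum_congr rfl fun x _ => ?_
    rw [hspan (Z x) ((hZT0 x).trans hT0)]
  rw [hsum]
  change 1 + ∑ x, finrank K (Q (Z x)) ≤ m + finrank K (Q T0)
  -- dimension of `U`
  have hU' : finrank K U + finrank K R = T.card := by
    have h2 := Submodule.finrank_quotient_add_finrank (R.comap W.subtype)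
    rw [finrank_suppSub, (Submodule.comapSubtypeEquivOfLe hRW).finrank_eq] at h2
    exact h2
  -- dimension of `Q (E x)`
  have hQE : ∀ x, finrank K (Q (E x)) +
      finrank K (R ⊓ suppSub (K := K) (E x : Set (FreeGroup X)) : Submodule K (GA K X)) =
      (E x).card := by
    intro x
    have h2 := LinearMap.finrank_range_add_finrank_ker
      (c.domRestrict (suppSub (K := K) (E x : Set (FreeGroup X))))
    rw [finrank_suppSub, LinearMap.range_domRestrict, ← hQmap] at h2
    rw [← h2]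
    congr 1
    have h3 : LinearMap.ker (c.domRestrict (suppSub (K := K) (E x : Set (FreeGroup X)))) =
        (R ⊓ suppSub (K := K) (E x : Set (FreeGroup X))).comap
          (suppSub (K := K) (E x : Set (FreeGroup X))).subtype := by
      ext ⟨ρ, hρ⟩
      rw [LinearMap.mem_ker, LinearMap.domRestrict_apply, Submodule.mem_comap,
        Submodule.subtype_apply, Submodule.mem_inf]
      have hρW : ρ ∈ W := fun g hg => Finset.mem_of_mem_filter g (hρ g hg)
      rw [hcker ρ hρW]
      exact ⟨fun h => ⟨h, hρ⟩, fun h => h.1⟩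
    rw [h3, (Submodule.comapSubtypeEquivOfLe inf_le_right).finrank_eq]
  have hcount := sum_edges_le T h1T
  have hcount' : 1 + ∑ x, (E x).card ≤ T.card := by
    convert hcount using 3
  have hsumQ : 1 + ∑ x, finrank K (Q (E x)) ≤ m + finrank K U := by
    have h2 : ∑ x, finrank K (Q (E x)) + ∑ x, finrank K (R ⊓ suppSub (K := K)
        (E x : Set (FreeGroup X)) : Submodule K (GA K X)) = ∑ x, (E x).card := by
      rw [← Finset.sum_add_distrib]
      exact Finset.sum_congr rfl fun x _ => hQE x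
    have h3 : finrank K R ≤ m + ∑ x, finrank K (R ⊓ suppSub (K := K)
        (E x : Set (FreeGroup X)) : Submodule K (GA K X)) := hRdim
    omega
  -- the relative part
  have hC : ∀ x, ∃ C : Submodule K U, C ≤ Q (E x) ∧ Q (Z x) ⊔ C = Q (E x) ∧
      finrank K (Q (Z x)) + finrank K C = finrank K (Q (E x)) := fun x =>
    exists_relative_compl (hQmono (hZE x))
  choose C hC1 hC2 hC3 using hC
  set δ : X → U →ₗ[K] U := fun x =>
    ((θ (FreeGroup.of x))⁻¹ : U ≃ₗ[K] U).toLinearMap - LinearMap.id with hδ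
  have hδc : ∀ x τ, τ ∈ T → τ * FreeGroup.of x ∈ T →
      δ x (c (el K τ)) = c (el K (τ * FreeGroup.of x)) - c (el K τ) := by
    intro x τ h2 h3
    have h4 : el K τ * el K (FreeGroup.of x) = el K (τ * FreeGroup.of x) := by
      rw [single_mul_single, mul_one]
    have h5 := hθ1 x (el K τ) (el_mem_suppSub (T := (T : Set (FreeGroup X))) h2) (by
      rw [h4]; exact el_mem_suppSub (T := (T : Set (FreeGroup X))) h3)
    rw [h4] at h5
    have h6 : (θ (FreeGroup.of x))⁻¹ (c (el K τ)) = c (el K (τ * FreeGroup.of x)) := by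
      rw [← h5, ← LinearEquiv.mul_apply, inv_mul_cancel]
      rfl
    rw [hδ]
    simp only [LinearMap.sub_apply, LinearMap.id_apply]
    rw [← h6]
    rfl
  set Y : Submodule K U := Q T0 ⊔ ⨆ x, (C x).map (δ x) with hY
  have hYE : ∀ x, (Q (E x)).map (δ x) ≤ Y := by
    intro x
    rw [← hC2 x, Submodule.map_sup]
    refine sup_le ?_ ((le_iSup (fun x => (C x).map (δ x)) x).trans le_sup_right)
    refine le_trans ?_ le_sup_left
    rw [hQ, Submodule.map_span, Submodule.span_le]
    rintro _ ⟨_, ⟨τ, hτ, rfl⟩, rfl⟩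
    have h2 := hZ x τ hτ
    simp only
    rw [hδc x τ (hT0 h2.1) (hT0 h2.2)]
    exact sub_mem (Submodule.subset_span ⟨_, h2.2, rfl⟩) (Submodule.subset_span ⟨_, h2.1, rfl⟩)
  have hstep : ∀ x τ, τ ∈ T → τ * FreeGroup.of x ∈ T →
      c (el K (τ * FreeGroup.of x)) - c (el K τ) ∈ Y := by
    intro x τ h2 h3
    rw [← hδc x τ h2 h3]
    refine hYE x ⟨c (el K τ), Submodule.subset_span ⟨τ, ?_, rfl⟩, rfl⟩
    exact Finset.mem_coe.2 (Finset.mem_filter.2 ⟨h2, h3⟩)
  have hall : ∀ τ ∈ (T : Set (FreeGroup X)), c (el K τ) ∈ Y := by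
    refine PC.induction hPC (P := fun τ => c (el K τ) ∈ Y) ?_ ?_ ?_
    · exact Submodule.mem_sup_left (Submodule.subset_span ⟨1, h1, rfl⟩)
    · intro τ x h2 h3 h4
      have := add_mem (hstep x τ h2 h3) h4
      simpa using this
    · intro τ x h2 h3 h4
      have := sub_mem h4 (hstep x τ h2 h3)
      simpa using this
  have htop : Y = ⊤ := by
    rw [eq_top_iff]
    rintro u -
    obtain ⟨⟨ρ, hρ⟩, rfl⟩ := Submodule.mkQ_surjective _ u
    rw [← hcW ρ hρ]
    have h2 : c ρ ∈ (suppSub (K := K) (T : Set (FreeGroup X))).map c := ⟨ρ, hρ, rfl⟩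
    rw [← hQmap] at h2
    refine (?_ : Q T ≤ Y) h2
    rw [hQ, Submodule.span_le]
    rintro _ ⟨τ, hτ, rfl⟩
    exact hall τ hτ
  have hdimU : finrank K U ≤ finrank K (Q T0) + ∑ x, finrank K (C x) := by
    calc finrank K U = finrank K Y := by rw [htop, finrank_top]
      _ ≤ finrank K (Q T0) + finrank K (⨆ x, (C x).map (δ x) : Submodule K U) :=
        Submodule.finrank_add_le_finrank_add_finrank _ _
      _ ≤ finrank K (Q T0) + ∑ x, finrank K ((C x).map (δ x)) := by
        gcongr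
        exact finrank_iSup_le _
      _ ≤ finrank K (Q T0) + ∑ x, finrank K (C x) := by
        gcongr with x
        exact Submodule.finrank_map_le _ _
  have hsum3 : ∑ x, finrank K (Q (Z x)) + ∑ x, finrank K (C x) = ∑ x, finrank K (Q (E x)) := by
    rw [← Finset.sum_add_distrib]
    exact Finset.sum_congr rfl fun x _ => hC3 x
  omega

end Pool.Agent.Helper91.QP
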