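import Pool.Agent.Helper65.Graph

/-!
# Module CROSS for MP_dd10ca_co
-/

set_option autoImplicit false

namespace Pool.Agent.Helper65

open Finset

/-- no edge of `E` between `U a` and `D b` -/
def inc (U D : ℕ → Finset ℕ) (E : Finset (ℕ × ℕ)) (a b : ℕ) : Prop :=
  Disjoint E (U a ×ˢ D b)

lemma Ex_inc_two {p : ℝ} (hp1 : p < 1) {H1 H2 : Finset ℕ} {U D : ℕ → Finset ℕ}
    {a a' b b' : ℕ} (ha : U a ⊆ H1) (ha' : U a' ⊆ H1) (hb : D b ⊆ H2) (hb' : D b' ⊆ H2) :
    Ex p (H1 ×ˢ H2) (fun E =>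
      (((1 - p) ^ ((U a).card * (D b).card))⁻¹ * ind (inc U D E a b)) *
      (((1 - p) ^ ((U a').card * (D b').card))⁻¹ * ind (inc U D E a' b'))) =
      ((1 - p) ^ ((U a ∩ U a').card * (D b ∩ D b').card))⁻¹ := by
  have hq : (0 : ℝ) < 1 - p := by linarith
  have hX : U a ×ˢ D b ⊆ H1 ×ˢ H2 := Finset.product_subset_product ha hb
  have hX' : U a' ×ˢ D b' ⊆ H1 ×ˢ H2 := Finset.product_subset_product ha' hb'
  have h1 : ∀ E : Finset (ℕ × ℕ),
      (((1 - p) ^ ((U a).card * (D b).card))⁻¹ * ind (inc U D E a b)) *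
      (((1 - p) ^ ((U a').card * (D b').card))⁻¹ * ind (inc U D E a' b')) =
      (((1 - p) ^ ((U a).card * (D b).card))⁻¹ * ((1 - p) ^ ((U a').card * (D b').card))⁻¹) *
        ind (Disjoint E (U a ×ˢ D b ∪ U a' ×ˢ D b')) := by
    intro E
    have : ind (Disjoint E (U a ×ˢ D b ∪ U a' ×ˢ D b')) =
        ind (inc U D E a b) * ind (inc U D E a' b') := by
      rw [← ind_and]
      refine ind_congr ?_
      rw [Finset.disjoint_union_right]
      rfl
    rw [this]
    ring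
  simp_rw [h1]
  rw [Ex_mul_left]
  have h2 := Pr_disjoint p (Finset.union_subset hX hX')
  unfold Pr at h2
  rw [h2]
  have h3 : (U a ×ˢ D b ∪ U a' ×ˢ D b').card + ((U a ∩ U a').card * (D b ∩ D b').card) =
      (U a).card * (D b).card + (U a').card * (D b').card := by
    have := Finset.card_union_add_card_inter (U a ×ˢ D b) (U a' ×ˢ D b')
    rw [Finset.product_inter_product, Finset.card_product, Finset.card_product,
      Finset.card_product] at this
    exact this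
  have h4 : (1 - p) ^ (U a ×ˢ D b ∪ U a' ×ˢ D b').card *
      (1 - p) ^ ((U a ∩ U a').card * (D b ∩ D b').card) =
      (1 - p) ^ ((U a).card * (D b).card) * (1 - p) ^ ((U a').card * (D b').card) := by
    rw [← pow_add, ← pow_add, h3]
  have h5 : (1 - p) ^ ((U a).card * (D b).card) ≠ 0 := by positivity
  have h6 : (1 - p) ^ ((U a').card * (D b').card) ≠ 0 := by positivity
  have h7 : (1 - p) ^ ((U a ∩ U a').card * (D b ∩ D b').card) ≠ 0 := by positivity
  field_simp
  linarith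

lemma Ex_inc_one {p : ℝ} (hp1 : p < 1) {H1 H2 : Finset ℕ} {U D : ℕ → Finset ℕ}
    {a b : ℕ} (ha : U a ⊆ H1) (hb : D b ⊆ H2) :
    Ex p (H1 ×ˢ H2) (fun E =>
      (((1 - p) ^ ((U a).card * (D b).card))⁻¹ * ind (inc U D E a b))) = 1 := by
  have hq : (0 : ℝ) < 1 - p := by linarith
  have hX : U a ×ˢ D b ⊆ H1 ×ˢ H2 := Finset.product_subset_product ha hb
  rw [Ex_mul_left]
  have h2 := Pr_disjoint p hX
  unfold Pr at h2
  have h3 : Ex p (H1 ×ˢ H2) (fun E => ind (inc U D E a b)) =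
      (1 - p) ^ (U a ×ˢ D b).card := h2
  rw [h3, Finset.card_product]
  have h5 : (1 - p) ^ ((U a).card * (D b).card) ≠ 0 := by positivity
  exact inv_mul_cancel₀ h5

/-- Second moment of a sum of variables with mean one. -/
lemma Ex_var {α : Type*} (p : ℝ) (s : Finset (ℕ × ℕ)) (T : Finset α)
    (z : α → Finset (ℕ × ℕ) → ℝ) (c : α → α → ℝ) (h1 : ∀ i ∈ T, Ex p s (z i) = 1)
    (h2 : ∀ i ∈ T, ∀ j ∈ T, Ex p s (fun E => z i E * z j E) = c i j) :
    Ex p s (fun E => (∑ i ∈ T, z i E - T.card) ^ 2) = ∑ i ∈ T, ∑ j ∈ T, (c i j - 1) := by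
  have h3 : ∀ E, (∑ i ∈ T, z i E - T.card) ^ 2 =
      ∑ i ∈ T, ∑ j ∈ T, (z i E * z j E) + (-2 * T.card) * ∑ i ∈ T, z i E + (T.card : ℝ) ^ 2 := by
    intro E
    rw [← Finset.sum_mul_sum]
    ring
  simp_rw [h3]
  rw [Ex_add, Ex_add, Ex_const, Ex_mul_left, Ex_sum, Ex_sum]
  have h4 : ∑ i ∈ T, Ex p s (fun E => ∑ j ∈ T, z i E * z j E) = ∑ i ∈ T, ∑ j ∈ T, c i j := by
    refine Finset.sum_congr rfl ?_
    intro i hi
    rw [Ex_sum]
    exact Finset.sum_congr rfl (fun j hj => h2 i hi j hj)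
  rw [h4, Finset.sum_congr rfl h1]
  simp only [Finset.sum_sub_distrib, Finset.sum_const, nsmul_eq_mul, mul_one]
  ring

lemma heavy_le {z n : ℝ} (hn : 0 < n) : z * ind (2 * n < z) ≤ 2 / n * (z - n) ^ 2 := by
  by_cases h : 2 * n < z
  · rw [ind_pos h, mul_one, div_mul_eq_mul_div, le_div_iff₀ hn]
    nlinarith [mul_pos hn (sub_pos.mpr h), sq_nonneg (z - 2 * n)]
  · rw [ind_neg h, mul_zero]
    positivity

theorem cross_weights {p β : ℝ} (hp0 : 0 < p) (hp1 : p < 1) (hβ : 0 ≤ β)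
    (H1 H2 A B : Finset ℕ) (U D : ℕ → Finset ℕ)
    (hU : ∀ a ∈ A, U a ⊆ H1) (hD : ∀ b ∈ B, D b ⊆ H2)
    (hA : A.Nonempty) (hB : B.Nonempty)
    (hβB : ∀ a ∈ A, ∑ b ∈ B, ∑ b' ∈ B,
      (((1 - p) ^ ((U a).card * (D b ∩ D b').card))⁻¹ - 1) ≤ β * (B.card : ℝ) ^ 2)
    (hβA : ∀ b ∈ B, ∑ a ∈ A, ∑ a' ∈ A,
      (((1 - p) ^ ((U a ∩ U a').card * (D b).card))⁻¹ - 1) ≤ β * (A.card : ℝ) ^ 2) :
    1 - 100 * β ≤ Pr p (H1 ×ˢ H2) (fun E =>
      ∃ A' ⊆ A, ∃ B' ⊆ B, ∃ w : ℕ → ℕ → ℝ, (∀ a b, 0 ≤ w a b) ∧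
        (∀ a ∈ A', ∑ b ∈ B, w a b * ind (inc U D E a b) ≤ 2 * B.card) ∧
        (∀ b ∈ B', ∑ a ∈ A, w a b * ind (inc U D E a b) ≤ 2 * A.card) ∧
        ((A.card : ℝ) * B.card) / 4 ≤ ∑ a ∈ A', ∑ b ∈ B', w a b * ind (inc U D E a b)) := by
  classical
  have hq : (0 : ℝ) < 1 - p := by linarith
  have hq1 : (1 - p : ℝ) ≤ 1 := by linarith
  have hnA : (0 : ℝ) < A.card := by exact_mod_cast hA.card_pos
  have hnB : (0 : ℝ) < B.card := by exact_mod_cast hB.card_pos
  set s := H1 ×ˢ H2 with hs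
  let w : ℕ → ℕ → ℝ := fun a b => ((1 - p) ^ ((U a).card * (D b).card))⁻¹
  have hw0 : ∀ a b, 0 ≤ w a b := fun a b => by positivity
  let x : ℕ → ℕ → Finset (ℕ × ℕ) → ℝ := fun a b E => w a b * ind (inc U D E a b)
  have hx0 : ∀ a b E, 0 ≤ x a b E := fun a b E => mul_nonneg (hw0 a b) (ind_nonneg _)
  let X : ℕ → Finset (ℕ × ℕ) → ℝ := fun a E => ∑ b ∈ B, x a b E
  let Y : ℕ → Finset (ℕ × ℕ) → ℝ := fun b E => ∑ a ∈ A, x a b E
  let W : Finset (ℕ × ℕ) → ℝ := fun E => ∑ a ∈ A, X a E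
  have hX0 : ∀ a E, 0 ≤ X a E := fun a E => Finset.sum_nonneg (fun b _ => hx0 a b E)
  have hY0 : ∀ b E, 0 ≤ Y b E := fun b E => Finset.sum_nonneg (fun a _ => hx0 a b E)
  -- moments
  have hXvar : ∀ a ∈ A, Ex p s (fun E => (X a E - B.card) ^ 2) ≤ β * (B.card : ℝ) ^ 2 := by
    intro a ha
    refine le_trans (le_of_eq ?_) (hβB a ha)
    refine Ex_var p s B (fun b => x a b)
      (fun b b' => ((1 - p) ^ ((U a).card * (D b ∩ D b').card))⁻¹) ?_ ?_
    · intro b hb
      exact Ex_inc_one hp1 (hU a ha) (hD b hb)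
    · intro b hb b' hb'
      have := Ex_inc_two hp1 (hU a ha) (hU a ha) (hD b hb) (hD b' hb')
      rw [Finset.inter_self] at this
      exact this
  have hYvar : ∀ b ∈ B, Ex p s (fun E => (Y b E - A.card) ^ 2) ≤ β * (A.card : ℝ) ^ 2 := by
    intro b hb
    refine le_trans (le_of_eq ?_) (hβA b hb)
    refine Ex_var p s A (fun a => x a b)
      (fun a a' => ((1 - p) ^ ((U a ∩ U a').card * (D b).card))⁻¹) ?_ ?_
    · intro a ha
      exact Ex_inc_one hp1 (hU a ha) (hD b hb)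
    · intro a ha a' ha'
      have := Ex_inc_two hp1 (hU a ha) (hU a' ha') (hD b hb) (hD b hb)
      rw [Finset.inter_self (D b)] at this
      exact this
  have hWvar : Ex p s (fun E => (W E - A.card * B.card) ^ 2) ≤
      β * ((A.card : ℝ) ^ 2 * (B.card : ℝ) ^ 2) := by
    have h1 := Ex_var p s (A ×ˢ B) (fun i => x i.1 i.2)
      (fun i j => ((1 - p) ^ ((U i.1 ∩ U j.1).card * (D i.2 ∩ D j.2).card))⁻¹) ?_ ?_
    · have h2 : ∀ E, (∑ i ∈ A ×ˢ B, x i.1 i.2 E - ((A ×ˢ B).card : ℝ)) ^ 2 =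
          (W E - A.card * B.card) ^ 2 := by
        intro E
        rw [Finset.sum_product, Finset.card_product]
        push_cast
        rfl
      simp_rw [h2] at h1
      rw [h1, Finset.sum_product]
      calc ∑ a ∈ A, ∑ b ∈ B, ∑ j ∈ A ×ˢ B,
            (((1 - p) ^ ((U a ∩ U j.1).card * (D b ∩ D j.2).card))⁻¹ - 1)
          = ∑ a ∈ A, ∑ b ∈ B, ∑ a' ∈ A, ∑ b' ∈ B,
            (((1 - p) ^ ((U a ∩ U a').card * (D b ∩ D b').card))⁻¹ - 1) := by
            refine Finset.sum_congr rfl (fun a _ => Finset.sum_congr rfl (fun b _ => ?_))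
            rw [Finset.sum_product]
        _ ≤ ∑ a ∈ A, ∑ b ∈ B, ∑ a' ∈ A, ∑ b' ∈ B,
            (((1 - p) ^ ((U a).card * (D b ∩ D b').card))⁻¹ - 1) := by
            refine Finset.sum_le_sum (fun a _ => Finset.sum_le_sum (fun b _ =>
              Finset.sum_le_sum (fun a' _ => Finset.sum_le_sum (fun b' _ => ?_))))
            refine sub_le_sub_right ?_ 1
            refine inv_anti₀ (by positivity) ?_
            refine pow_le_pow_of_le_one hq.le hq1 ?_
            exact Nat.mul_le_mul_right _ (Finset.card_le_card Finset.inter_subset_left)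
        _ = ∑ a ∈ A, ∑ a' ∈ A, ∑ b ∈ B, ∑ b' ∈ B,
            (((1 - p) ^ ((U a).card * (D b ∩ D b').card))⁻¹ - 1) := by
            refine Finset.sum_congr rfl (fun a _ => ?_)
            rw [Finset.sum_comm]
        _ ≤ ∑ a ∈ A, ∑ a' ∈ A, β * (B.card : ℝ) ^ 2 :=
            Finset.sum_le_sum (fun a ha => Finset.sum_le_sum (fun a' _ => hβB a ha))
        _ = β * ((A.card : ℝ) ^ 2 * (B.card : ℝ) ^ 2) := by
            simp only [Finset.sum_const, nsmul_eq_mul]
            ring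
    · rintro ⟨a, b⟩ hi
      rw [Finset.mem_product] at hi
      exact Ex_inc_one hp1 (hU a hi.1) (hD b hi.2)
    · rintro ⟨a, b⟩ hi ⟨a', b'⟩ hj
      rw [Finset.mem_product] at hi hj
      exact Ex_inc_two hp1 (hU a hi.1) (hU a' hj.1) (hD b hi.2) (hD b' hj.2)
  -- heavy parts
  let T1 : Finset (ℕ × ℕ) → ℝ := fun E => ∑ a ∈ A, X a E * ind (2 * (B.card : ℝ) < X a E)
  let T2 : Finset (ℕ × ℕ) → ℝ := fun E => ∑ b ∈ B, Y b E * ind (2 * (A.card : ℝ) < Y b E)
  have hT1 : Ex p s T1 ≤ 2 * β * (A.card * B.card) := by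
    calc Ex p s T1 = ∑ a ∈ A, Ex p s (fun E => X a E * ind (2 * (B.card : ℝ) < X a E)) :=
          Ex_sum _ _ _ _
      _ ≤ ∑ a ∈ A, Ex p s (fun E => 2 / (B.card : ℝ) * (X a E - B.card) ^ 2) :=
          Finset.sum_le_sum (fun a _ => Ex_mono hp0.le hp1.le (fun E _ => heavy_le hnB))
      _ ≤ ∑ a ∈ A, 2 / (B.card : ℝ) * (β * (B.card : ℝ) ^ 2) := by
          refine Finset.sum_le_sum (fun a ha => ?_)
          rw [Ex_mul_left]
          exact mul_le_mul_of_nonneg_left (hXvar a ha) (by positivity)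
      _ = 2 * β * (A.card * B.card) := by
          rw [Finset.sum_const, nsmul_eq_mul]
          field_simp
  have hT2 : Ex p s T2 ≤ 2 * β * (A.card * B.card) := by
    calc Ex p s T2 = ∑ b ∈ B, Ex p s (fun E => Y b E * ind (2 * (A.card : ℝ) < Y b E)) :=
          Ex_sum _ _ _ _
      _ ≤ ∑ b ∈ B, Ex p s (fun E => 2 / (A.card : ℝ) * (Y b E - A.card) ^ 2) :=
          Finset.sum_le_sum (fun b _ => Ex_mono hp0.le hp1.le (fun E _ => heavy_le hnA))
      _ ≤ ∑ b ∈ B, 2 / (A.card : ℝ) * (β * (A.card : ℝ) ^ 2) := by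
          refine Finset.sum_le_sum (fun b hb => ?_)
          rw [Ex_mul_left]
          exact mul_le_mul_of_nonneg_left (hYvar b hb) (by positivity)
      _ = 2 * β * (A.card * B.card) := by
          rw [Finset.sum_const, nsmul_eq_mul]
          field_simp
  have hT10 : ∀ E ⊆ s, 0 ≤ T1 E := fun E _ =>
    Finset.sum_nonneg (fun a _ => mul_nonneg (hX0 a E) (ind_nonneg _))
  have hT20 : ∀ E ⊆ s, 0 ≤ T2 E := fun E _ =>
    Finset.sum_nonneg (fun b _ => mul_nonneg (hY0 b E) (ind_nonneg _))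
  have hAB : (0 : ℝ) < A.card * B.card := mul_pos hnA hnB
  have hP1 : Pr p s (fun E => (A.card * B.card : ℝ) / 8 ≤ T1 E) ≤ 16 * β := by
    refine (Pr_markov hp0.le hp1.le hT10 (by positivity)).trans ?_
    rw [div_le_iff₀ (by positivity)]
    linarith
  have hP2 : Pr p s (fun E => (A.card * B.card : ℝ) / 8 ≤ T2 E) ≤ 16 * β := by
    refine (Pr_markov hp0.le hp1.le hT20 (by positivity)).trans ?_
    rw [div_le_iff₀ (by positivity)]
    linarith
  have hP3 : Pr p s (fun E => (A.card * B.card : ℝ) ^ 2 / 4 ≤ (W E - A.card * B.card) ^ 2) ≤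
      4 * β := by
    refine (Pr_markov hp0.le hp1.le (fun E _ => sq_nonneg _) (by positivity)).trans ?_
    rw [div_le_iff₀ (by positivity)]
    refine hWvar.trans (le_of_eq ?_)
    ring
  -- the good event
  have hbad : Pr p s (fun E => ¬ ∃ A' ⊆ A, ∃ B' ⊆ B, ∃ w : ℕ → ℕ → ℝ, (∀ a b, 0 ≤ w a b) ∧
        (∀ a ∈ A', ∑ b ∈ B, w a b * ind (inc U D E a b) ≤ 2 * B.card) ∧
        (∀ b ∈ B', ∑ a ∈ A, w a b * ind (inc U D E a b) ≤ 2 * A.card) ∧
        ((A.card : ℝ) * B.card) / 4 ≤ ∑ a ∈ A', ∑ b ∈ B', w a b * ind (inc U D E a b)) ≤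
      Pr p s (fun E => (A.card * B.card : ℝ) / 8 ≤ T1 E ∨ ((A.card * B.card : ℝ) / 8 ≤ T2 E ∨
        (A.card * B.card : ℝ) ^ 2 / 4 ≤ (W E - A.card * B.card) ^ 2)) := by
    refine Pr_mono hp0.le hp1.le ?_
    intro E _ hE
    by_contra hcon
    rw [not_or, not_or, not_le, not_le, not_le] at hcon
    obtain ⟨h1, h2, h3⟩ := hcon
    apply hE
    refine ⟨A.filter (fun a => ¬ 2 * (B.card : ℝ) < X a E), Finset.filter_subset _ _,
      B.filter (fun b => ¬ 2 * (A.card : ℝ) < Y b E), Finset.filter_subset _ _, w, hw0, ?_, ?_, ?_⟩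
    · intro a ha
      exact not_lt.mp (Finset.mem_filter.mp ha).2
    · intro b hb
      exact not_lt.mp (Finset.mem_filter.mp hb).2
    · -- the total weight
      have hWlow : (A.card * B.card : ℝ) / 2 ≤ W E := by
        by_contra hlt
        rw [not_le] at hlt
        have : (A.card * B.card : ℝ) / 2 ≤ A.card * B.card - W E := by linarith
        nlinarith [mul_self_nonneg ((A.card * B.card : ℝ) - W E - A.card * B.card / 2)]
      have hsum : W E ≤ ∑ a ∈ A.filter (fun a => ¬ 2 * (B.card : ℝ) < X a E),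
          ∑ b ∈ B.filter (fun b => ¬ 2 * (A.card : ℝ) < Y b E), x a b E + T1 E + T2 E := by
        have e1 : W E = ∑ a ∈ A, ∑ b ∈ B, x a b E := rfl
        have e2 : T1 E = ∑ a ∈ A, ∑ b ∈ B, x a b E * ind (2 * (B.card : ℝ) < X a E) :=
          Finset.sum_congr rfl (fun a _ => Finset.sum_mul _ _ _)
        have e3 : T2 E = ∑ a ∈ A, ∑ b ∈ B, x a b E * ind (2 * (A.card : ℝ) < Y b E) := by
          rw [Finset.sum_comm]
          exact Finset.sum_congr rfl (fun b _ => Finset.sum_mul _ _ _)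
        have e4 : ∑ a ∈ A.filter (fun a => ¬ 2 * (B.card : ℝ) < X a E),
            ∑ b ∈ B.filter (fun b => ¬ 2 * (A.card : ℝ) < Y b E), x a b E =
            ∑ a ∈ A, ∑ b ∈ B, x a b E *
              (ind (¬ 2 * (B.card : ℝ) < X a E) * ind (¬ 2 * (A.card : ℝ) < Y b E)) := by
          rw [Finset.sum_filter]
          refine Finset.sum_congr rfl (fun a _ => ?_)
          by_cases h : 2 * (B.card : ℝ) < X a E
          · rw [if_neg (not_not.mpr h), ind_neg (not_not.mpr h)]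
            simp
          · rw [if_pos h, ind_pos h, Finset.sum_filter]
            refine Finset.sum_congr rfl (fun b _ => ?_)
            by_cases h' : 2 * (A.card : ℝ) < Y b E
            · rw [if_neg (not_not.mpr h'), ind_neg (not_not.mpr h')]
              simp
            · rw [if_pos h', ind_pos h']
              simp
        rw [e1, e2, e3, e4, ← Finset.sum_add_distrib, ← Finset.sum_add_distrib]
        refine Finset.sum_le_sum (fun a _ => ?_)
        rw [← Finset.sum_add_distrib, ← Finset.sum_add_distrib]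
        refine Finset.sum_le_sum (fun b _ => ?_)
        have h0 := hx0 a b E
        by_cases h : 2 * (B.card : ℝ) < X a E <;> by_cases h' : 2 * (A.card : ℝ) < Y b E <;>
          simp [ind, h, h', h0]
      have : ((A.card : ℝ) * B.card) / 4 ≤
          ∑ a ∈ A.filter (fun a => ¬ 2 * (B.card : ℝ) < X a E),
          ∑ b ∈ B.filter (fun b => ¬ 2 * (A.card : ℝ) < Y b E), x a b E := by
        linarith
      exact this
  have hor := Pr_or_le (s := s) hp0.le hp1.le (fun E => (A.card * B.card : ℝ) / 8 ≤ T1 E)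
    (fun E => (A.card * B.card : ℝ) / 8 ≤ T2 E ∨
        (A.card * B.card : ℝ) ^ 2 / 4 ≤ (W E - A.card * B.card) ^ 2)
  have hor2 := Pr_or_le (s := s) hp0.le hp1.le (fun E => (A.card * B.card : ℝ) / 8 ≤ T2 E)
    (fun E => (A.card * B.card : ℝ) ^ 2 / 4 ≤ (W E - A.card * B.card) ^ 2)
  rw [Pr_not] at hbad
  linarith

theorem cross_KRR {p : ℝ} (hp0 : 0 < p) (hp1 : p < 1) (R K1 K2 : ℕ)
    (H1 H2 A B : Finset ℕ) (U D : ℕ → Finset ℕ)
    (hU : ∀ a ∈ A, U a ⊆ H1) (hD : ∀ b ∈ B, D b ⊆ H2)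
    (hK1 : ∀ S ⊆ A, S.card = R → K1 ≤ (S.biUnion U).card)
    (hK2 : ∀ T ⊆ B, T.card = R → K2 ≤ (T.biUnion D).card) :
    Pr p (H1 ×ˢ H2) (fun E => ∃ S ⊆ A, ∃ T ⊆ B, S.card = R ∧ T.card = R ∧
      ∀ a ∈ S, ∀ b ∈ T, inc U D E a b) ≤
      (A.card : ℝ) ^ R * (B.card : ℝ) ^ R * (1 - p) ^ (K1 * K2) := by
  classical
  have hq : (0 : ℝ) < 1 - p := by linarith
  have hq1 : (1 - p : ℝ) ≤ 1 := by linarith
  let I := A.powersetCard R ×ˢ B.powersetCard R
  have h1 : Pr p (H1 ×ˢ H2) (fun E => ∃ S ⊆ A, ∃ T ⊆ B, S.card = R ∧ T.card = R ∧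
      ∀ a ∈ S, ∀ b ∈ T, inc U D E a b) ≤
      Pr p (H1 ×ˢ H2) (fun E => ∃ i ∈ I, Disjoint E (i.1.biUnion U ×ˢ i.2.biUnion D)) := by
    refine Pr_mono hp0.le hp1.le ?_
    rintro E _ ⟨S, hS, T, hT, hSc, hTc, h⟩
    refine ⟨(S, T), Finset.mem_product.mpr ⟨Finset.mem_powersetCard.mpr ⟨hS, hSc⟩,
      Finset.mem_powersetCard.mpr ⟨hT, hTc⟩⟩, ?_⟩
    rw [Finset.disjoint_right]
    rintro ⟨u, v⟩ huv hE
    rw [Finset.mem_product, Finset.mem_biUnion, Finset.mem_biUnion] at huv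
    obtain ⟨⟨a, ha, hau⟩, b, hb, hbv⟩ := huv
    exact Finset.disjoint_right.mp (h a ha b hb) (Finset.mem_product.mpr ⟨hau, hbv⟩) hE
  refine h1.trans ((Pr_exists_le hp0.le hp1.le I _).trans ?_)
  have h2 : ∀ i ∈ I, Pr p (H1 ×ˢ H2) (fun E => Disjoint E (i.1.biUnion U ×ˢ i.2.biUnion D)) ≤
      (1 - p) ^ (K1 * K2) := by
    rintro ⟨S, T⟩ hi
    obtain ⟨hS, hT⟩ := Finset.mem_product.mp hi
    obtain ⟨hS1, hS2⟩ := Finset.mem_powersetCard.mp hS
    obtain ⟨hT1, hT2⟩ := Finset.mem_powersetCard.mp hT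
    simp only at hS1 hS2 hT1 hT2 ⊢
    rw [Pr_disjoint p (Finset.product_subset_product
      (Finset.biUnion_subset.mpr (fun a ha => hU a (hS1 ha)))
      (Finset.biUnion_subset.mpr (fun b hb => hD b (hT1 hb)))), Finset.card_product]
    exact pow_le_pow_of_le_one hq.le hq1 (Nat.mul_le_mul (hK1 S hS1 hS2) (hK2 T hT1 hT2))
  refine (Finset.sum_le_sum h2).trans ?_
  rw [Finset.sum_const, nsmul_eq_mul]
  refine mul_le_mul_of_nonneg_right ?_ (by positivity)
  rw [Finset.card_product, Finset.card_powersetCard, Finset.card_powersetCard]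
  have h3 : (A.card.choose R : ℝ) ≤ (A.card : ℝ) ^ R := by
    exact_mod_cast Nat.choose_le_pow A.card R
  have h4 : (B.card.choose R : ℝ) ≤ (B.card : ℝ) ^ R := by
    exact_mod_cast Nat.choose_le_pow B.card R
  push_cast
  exact mul_le_mul h3 h4 (by positivity) (by positivity)

/-- The elements with fewer than `R` larger ones (for an injective ranking) are at most `R`. -/
lemma card_top_le (A : Finset ℕ) (R : ℕ) (τ : ℕ → ℤ)
    (hτ : ∀ x ∈ A, ∀ y ∈ A, τ x = τ y → x = y) :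
    (A.filter (fun a => (A.filter (fun x => τ a < τ x)).card < R)).card ≤ R := by
  classical
  have h : (A.filter (fun a => (A.filter (fun x => τ a < τ x)).card < R)).card ≤
      (range R).card := by
    refine Finset.card_le_card_of_injOn (fun a => (A.filter (fun x => τ a < τ x)).card) ?_ ?_
    · intro a ha
      simpa using (Finset.mem_filter.mp ha).2
    · intro a ha a' ha' haa
      have haA := (Finset.mem_filter.mp ha).1
      have haA' := (Finset.mem_filter.mp ha').1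
      simp only at haa
      have key : ∀ u ∈ A, ∀ v ∈ A, τ u < τ v →
          (A.filter (fun x => τ v < τ x)).card < (A.filter (fun x => τ u < τ x)).card := by
        intro u _ v hv huv
        refine Finset.card_lt_card ?_
        rw [Finset.ssubset_iff_of_subset]
        · exact ⟨v, Finset.mem_filter.mpr ⟨hv, huv⟩, by simp⟩
        · intro x hx
          rw [Finset.mem_filter] at hx ⊢
          exact ⟨hx.1, huv.trans hx.2⟩
      rcases lt_trichotomy (τ a) (τ a') with h | h | h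
      · have := key a haA a' haA' h
        omega
      · exact hτ a haA a' haA' h
      · have := key a' haA' a haA h
        omega
  rwa [Finset.card_range] at h

/-- deterministic: few linear orders cannot reverse all pairs. -/
theorem realizer_lower (A B A' B' : Finset ℕ) (hA' : A' ⊆ A) (hB' : B' ⊆ B) (R d : ℕ)
    (I : ℕ → ℕ → Prop) (w : ℕ → ℕ → ℝ) (hw : ∀ a b, 0 ≤ w a b)
    (hrow : ∀ a ∈ A', ∑ b ∈ B, w a b * ind (I a b) ≤ 2 * B.card)
    (hcol : ∀ b ∈ B', ∑ a ∈ A, w a b * ind (I a b) ≤ 2 * A.card)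
    (htot : ((A.card : ℝ) * B.card) / 4 ≤ ∑ a ∈ A', ∑ b ∈ B', w a b * ind (I a b))
    (hKRR : ¬ ∃ S ⊆ A, ∃ T ⊆ B, S.card = R ∧ T.card = R ∧ ∀ a ∈ S, ∀ b ∈ T, I a b)
    (σ : Fin d → ℕ → ℕ) (hσ : ∀ k, ∀ x ∈ A' ∪ B', ∀ y ∈ A' ∪ B', σ k x = σ k y → x = y)
    (hAB : Disjoint A B)
    (hrev : ∀ a ∈ A', ∀ b ∈ B', (I a b ↔ ∃ k, σ k b < σ k a)) :
    ((A.card : ℝ) * B.card) / 4 ≤ d * (R * (2 * A.card + 2 * B.card)) := by
  classical
  have hx0 : ∀ a b, 0 ≤ w a b * ind (I a b) := fun a b => mul_nonneg (hw a b) (ind_nonneg _)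
  -- one order
  have hone : ∀ k : Fin d, ∑ a ∈ A', ∑ b ∈ B', (w a b * ind (I a b)) * ind (σ k b < σ k a) ≤
      R * (2 * A.card + 2 * B.card) := by
    intro k
    let TA := A'.filter (fun a => (A'.filter (fun x => (σ k a : ℤ) < σ k x)).card < R)
    let TB := B'.filter (fun b => (B'.filter (fun x => (-(σ k b : ℤ)) < -(σ k x : ℤ))).card < R)
    have hTA : TA.card ≤ R := card_top_le A' R (fun a => (σ k a : ℤ)) (fun x hx y hy h =>
      hσ k x (Finset.mem_union_left _ hx) y (Finset.mem_union_left _ hy) (by exact_mod_cast h))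
    have hTB : TB.card ≤ R := card_top_le B' R (fun b => (-(σ k b : ℤ))) (fun x hx y hy h =>
      hσ k x (Finset.mem_union_right _ hx) y (Finset.mem_union_right _ hy) (by
        have h' : (-(σ k x : ℤ)) = -(σ k y : ℤ) := h
        omega))
    have hcover : ∀ a ∈ A', ∀ b ∈ B', σ k b < σ k a → a ∈ TA ∨ b ∈ TB := by
      intro a ha b hb hlt
      by_contra hcon
      rw [not_or] at hcon
      obtain ⟨h1, h2⟩ := hcon
      have h1' : R ≤ (A'.filter (fun x => (σ k a : ℤ) < σ k x)).card := by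
        by_contra h
        exact h1 (Finset.mem_filter.mpr ⟨ha, not_le.mp h⟩)
      have h2' : R ≤ (B'.filter (fun x => (-(σ k b : ℤ)) < -(σ k x : ℤ))).card := by
        by_contra h
        exact h2 (Finset.mem_filter.mpr ⟨hb, not_le.mp h⟩)
      obtain ⟨S, hS, hSc⟩ := Finset.exists_subset_card_eq h1'
      obtain ⟨T, hT, hTc⟩ := Finset.exists_subset_card_eq h2'
      have hSA : S ⊆ A' := hS.trans (Finset.filter_subset _ _)
      have hTB : T ⊆ B' := hT.trans (Finset.filter_subset _ _)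
      refine hKRR ⟨S, hSA.trans hA', T, hTB.trans hB', hSc, hTc, ?_⟩
      intro x hx y hy
      have h3 : (σ k a : ℤ) < σ k x := (Finset.mem_filter.mp (hS hx)).2
      have h4 : (-(σ k b : ℤ)) < -(σ k y : ℤ) := (Finset.mem_filter.mp (hT hy)).2
      rw [hrev x (hSA hx) y (hTB hy)]
      exact ⟨k, by omega⟩
    have hle : ∀ a ∈ A', ∀ b ∈ B', (w a b * ind (I a b)) * ind (σ k b < σ k a) ≤
        (w a b * ind (I a b)) * ind (a ∈ TA) + (w a b * ind (I a b)) * ind (b ∈ TB) := by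
      intro a ha b hb
      rw [← mul_add]
      refine mul_le_mul_of_nonneg_left ?_ (hx0 a b)
      by_cases h : σ k b < σ k a
      · rw [ind_pos h]
        rcases hcover a ha b hb h with h1 | h1
        · rw [ind_pos h1]
          linarith [ind_nonneg (b ∈ TB)]
        · rw [ind_pos h1]
          linarith [ind_nonneg (a ∈ TA)]
      · rw [ind_neg h]
        linarith [ind_nonneg (a ∈ TA), ind_nonneg (b ∈ TB)]
    calc ∑ a ∈ A', ∑ b ∈ B', (w a b * ind (I a b)) * ind (σ k b < σ k a)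
        ≤ ∑ a ∈ A', ∑ b ∈ B', ((w a b * ind (I a b)) * ind (a ∈ TA) +
            (w a b * ind (I a b)) * ind (b ∈ TB)) :=
          Finset.sum_le_sum (fun a ha => Finset.sum_le_sum (fun b hb => hle a ha b hb))
      _ = ∑ a ∈ A', ∑ b ∈ B', (w a b * ind (I a b)) * ind (a ∈ TA) +
            ∑ b ∈ B', ∑ a ∈ A', (w a b * ind (I a b)) * ind (b ∈ TB) := by
          rw [Finset.sum_comm (s := B') (t := A'), ← Finset.sum_add_distrib]
          exact Finset.sum_congr rfl (fun a _ => Finset.sum_add_distrib)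
      _ ≤ ∑ a ∈ A', (2 * B.card : ℝ) * ind (a ∈ TA) +
            ∑ b ∈ B', (2 * A.card : ℝ) * ind (b ∈ TB) := by
          refine add_le_add (Finset.sum_le_sum (fun a ha => ?_))
            (Finset.sum_le_sum (fun b hb => ?_))
          · rw [← Finset.sum_mul]
            refine mul_le_mul_of_nonneg_right ?_ (ind_nonneg _)
            exact (Finset.sum_le_sum_of_subset_of_nonneg hB' (fun b _ _ => hx0 a b)).trans
              (hrow a ha)
          · rw [← Finset.sum_mul]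
            refine mul_le_mul_of_nonneg_right ?_ (ind_nonneg _)
            exact (Finset.sum_le_sum_of_subset_of_nonneg hA' (fun a _ _ => hx0 a b)).trans
              (hcol b hb)
      _ = (2 * B.card : ℝ) * TA.card + (2 * A.card : ℝ) * TB.card := by
          have hsum : ∀ (C C' : Finset ℕ), C' ⊆ C → ∀ c : ℝ,
              ∑ a ∈ C, c * ind (a ∈ C') = c * C'.card := by
            intro C C' hC c
            rw [← Finset.mul_sum]
            congr 1
            rw [← Finset.sum_subset hC (fun x _ hx => ind_neg hx),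
              Finset.sum_congr rfl (fun x hx => ind_pos hx), Finset.sum_const, nsmul_eq_mul,
              mul_one]
          rw [hsum A' TA (Finset.filter_subset _ _), hsum B' TB (Finset.filter_subset _ _)]
      _ ≤ R * (2 * A.card + 2 * B.card) := by
          have h1 : (TA.card : ℝ) ≤ R := by exact_mod_cast hTA
          have h2 : (TB.card : ℝ) ≤ R := by exact_mod_cast hTB
          have h3 : (0 : ℝ) ≤ 2 * B.card := by positivity
          have h4 : (0 : ℝ) ≤ 2 * A.card := by positivity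
          nlinarith [mul_le_mul_of_nonneg_left h1 h3, mul_le_mul_of_nonneg_left h2 h4]
  calc ((A.card : ℝ) * B.card) / 4 ≤ ∑ a ∈ A', ∑ b ∈ B', w a b * ind (I a b) := htot
    _ ≤ ∑ a ∈ A', ∑ b ∈ B', ∑ k : Fin d, (w a b * ind (I a b)) * ind (σ k b < σ k a) := by
        refine Finset.sum_le_sum (fun a ha => Finset.sum_le_sum (fun b hb => ?_))
        by_cases h : I a b
        · obtain ⟨k, hk⟩ := (hrev a ha b hb).mp h
          calc w a b * ind (I a b) = (w a b * ind (I a b)) * ind (σ k b < σ k a) := by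
                rw [ind_pos hk, mul_one]
            _ ≤ _ := Finset.single_le_sum
                (f := fun k : Fin d => (w a b * ind (I a b)) * ind (σ k b < σ k a))
                (fun j _ => mul_nonneg (hx0 a b) (ind_nonneg _)) (Finset.mem_univ k)
        · rw [ind_neg h, mul_zero]
          exact Finset.sum_nonneg (fun j _ => by simp)
    _ = ∑ k : Fin d, ∑ a ∈ A', ∑ b ∈ B', (w a b * ind (I a b)) * ind (σ k b < σ k a) := by
        rw [Finset.sum_comm (s := Finset.univ) (t := A')]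
        exact Finset.sum_congr rfl (fun a _ => Finset.sum_comm)
    _ ≤ ∑ _k : Fin d, (R * (2 * A.card + 2 * B.card) : ℝ) :=
        Finset.sum_le_sum (fun k _ => hone k)
    _ = d * (R * (2 * A.card + 2 * B.card)) := by
        rw [Finset.sum_const, nsmul_eq_mul, Finset.card_univ, Fintype.card_fin]

end Pool.Agent.Helper65
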