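import Pool.Agent.Helper65.Graph

/-!
# Module BRANCH for MP_dd10ca_co: overlaps of up-sets
-/

set_option autoImplicit false

namespace Pool.Agent.Helper65

open Finset

/-- number of superfluous edges met when exploring the up-set of `S` -/
def exc (E : Finset (ℕ × ℕ)) (S : Finset ℕ) : ℕ → ℕ
  | 0 => 0
  | (n + 1) => exc E S n + (((up E S n).filter (fun u => (u, n) ∈ E)).card - 1)

/-- number of in-neighbours of `w` inside the up-set of `S` -/
def dg (E : Finset (ℕ × ℕ)) (S : Finset ℕ) (w : ℕ) : ℕ :=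
  ((up E S w).filter (fun u => (u, w) ∈ E)).card

lemma exc_eq (E : Finset (ℕ × ℕ)) (S : Finset ℕ) (n : ℕ) :
    exc E S n = ∑ w ∈ range n, (dg E S w - 1) := by
  induction n with
  | zero => rfl
  | succ n ih => rw [Finset.sum_range_succ, ← ih]; rfl

/-- transitivity of reachability -/
lemma up_trans {E : Finset (ℕ × ℕ)} {S : Finset ℕ} {z : ℕ} (hz : z ∈ up E S (z + 1)) (k : ℕ) :
    up E {z} k ⊆ up E S k := by
  intro x
  induction x using Nat.strong_induction_on generalizing k with
  | _ x ih =>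
    intro hx
    rw [mem_up_iff] at hx
    obtain ⟨hxk, hx | ⟨u, hu, hux⟩⟩ := hx
    · rw [Finset.mem_singleton] at hx
      subst hx
      rw [mem_up_iff] at hz ⊢
      exact ⟨hxk, hz.2⟩
    · rw [mem_up_iff]
      exact ⟨hxk, Or.inr ⟨u, ih u (lt_of_mem_up hu) x hu, hux⟩⟩

lemma up_ge {E : Finset (ℕ × ℕ)} {z k x : ℕ} (hx : x ∈ up E {z} k) : z ≤ x := by
  induction x using Nat.strong_induction_on generalizing k with
  | _ x ih =>
    rw [mem_up_iff] at hx
    obtain ⟨hxk, hx | ⟨u, hu, hux⟩⟩ := hx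
    · rw [Finset.mem_singleton] at hx
      exact hx.ge
    · exact (ih u (lt_of_mem_up hu) hu).trans (lt_of_mem_up hu).le

lemma two_le_dg {E : Finset (ℕ × ℕ)} {S : Finset ℕ} {w a b : ℕ} (hab : a ≠ b)
    (ha : a ∈ up E S w) (hb : b ∈ up E S w) (haw : (a, w) ∈ E) (hbw : (b, w) ∈ E) :
    2 ≤ dg E S w := by
  unfold dg
  rw [← Nat.lt_iff_add_one_le, Finset.one_lt_card]
  exact ⟨a, Finset.mem_filter.mpr ⟨ha, haw⟩, b, Finset.mem_filter.mpr ⟨hb, hbw⟩, hab⟩

lemma key_fact {E : Finset (ℕ × ℕ)} {m n : ℕ} (hE : E ⊆ cols m n) {S : Finset ℕ}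
    (hS : S ⊆ range m) {a z a' z' : ℕ} (hz : (a, z) ∈ E) (hz' : (a', z') ∈ E)
    (ha : a ∈ S) (ha' : a' ∈ S) (hne : z ≠ z') {k : ℕ} (u : ℕ)
    (hu : u ∈ up E {z} k) (hu' : u ∈ up E {z'} k) :
    ∃ w ≤ u, w ∈ up E {z} k ∧ w ∈ up E {z'} k ∧ 2 ≤ dg E S w := by
  have haz := mem_cols.mp (hE hz)
  have haz' := mem_cols.mp (hE hz')
  simp only at haz haz'
  have ham : a < m := Finset.mem_range.mp (hS ha)
  have ham' : a' < m := Finset.mem_range.mp (hS ha')
  have haS : a ∈ up E S z := mem_up_of_mem ha haz.1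
  have haS' : a' ∈ up E S z' := mem_up_of_mem ha' haz'.1
  have hzS : z ∈ up E S (z + 1) := mem_up_of_edge haS hz (Nat.lt_succ_self z)
  have hzS' : z' ∈ up E S (z' + 1) := mem_up_of_edge haS' hz' (Nat.lt_succ_self z')
  induction u using Nat.strong_induction_on generalizing k with
  | _ u ih =>
    rcases (mem_up_iff.mp hu).2 with h1 | ⟨x, hx, hxu⟩
    · rw [Finset.mem_singleton] at h1
      subst h1
      rcases (mem_up_iff.mp hu').2 with h2 | ⟨y, hy, hyu⟩
      · rw [Finset.mem_singleton] at h2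
        exact absurd h2 hne
      · refine ⟨u, le_rfl, hu, hu', ?_⟩
        refine two_le_dg (a := a) (b := y) ?_ haS (up_trans hzS' _ hy) hz hyu
        have := up_ge hy
        omega
    · rcases (mem_up_iff.mp hu').2 with h2 | ⟨y, hy, hyu⟩
      · rw [Finset.mem_singleton] at h2
        subst h2
        refine ⟨u, le_rfl, hu, hu', ?_⟩
        refine two_le_dg (a := a') (b := x) ?_ haS' (up_trans hzS _ hx) hz' hxu
        have := up_ge hx
        omega
      · by_cases hxy : x = y
        · subst hxy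
          obtain ⟨w, hw, hw1, hw2, hw3⟩ := ih x (lt_of_mem_up hx) hx hy
          have huk : u ≤ k := (lt_of_mem_up hu).le
          exact ⟨w, hw.trans (lt_of_mem_up hx).le, up_mono _ _ huk hw1, up_mono _ _ huk hw2, hw3⟩
        · exact ⟨u, le_rfl, hu, hu', two_le_dg hxy (up_trans hzS _ hx) (up_trans hzS' _ hy)
            hxu hyu⟩

/-- edges into bad vertices, inside the up-set -/
def badE (E : Finset (ℕ × ℕ)) (S : Finset ℕ) : Finset (ℕ × ℕ) :=
  E.filter (fun e => e.1 ∈ up E S e.2 ∧ 2 ≤ dg E S e.2)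

lemma card_badE {E : Finset (ℕ × ℕ)} {m n : ℕ} (hE : E ⊆ cols m n) (S : Finset ℕ) :
    (badE E S).card ≤ 2 * exc E S n := by
  classical
  have hsub : badE E S ⊆ ((range n).filter (fun w => 2 ≤ dg E S w)).biUnion
      (fun w => ((up E S w).filter (fun u => (u, w) ∈ E)).image (fun u => (u, w))) := by
    rintro ⟨u, w⟩ he
    unfold badE at he
    rw [Finset.mem_filter] at he
    obtain ⟨h1, h2, h3⟩ := he
    simp only at h2 h3
    have h4 := mem_cols.mp (hE h1)
    rw [Finset.mem_biUnion]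
    refine ⟨w, Finset.mem_filter.mpr ⟨Finset.mem_range.mpr h4.2.2, h3⟩, ?_⟩
    exact Finset.mem_image.mpr ⟨u, Finset.mem_filter.mpr ⟨h2, h1⟩, rfl⟩
  calc (badE E S).card
      ≤ _ := Finset.card_le_card hsub
    _ ≤ ∑ w ∈ (range n).filter (fun w => 2 ≤ dg E S w),
          (((up E S w).filter (fun u => (u, w) ∈ E)).image (fun u => (u, w))).card :=
        Finset.card_biUnion_le
    _ ≤ ∑ w ∈ (range n).filter (fun w => 2 ≤ dg E S w), 2 * (dg E S w - 1) := by
        refine Finset.sum_le_sum ?_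
        intro w hw
        have h1 : 2 ≤ dg E S w := (Finset.mem_filter.mp hw).2
        have h2 : (((up E S w).filter (fun u => (u, w) ∈ E)).image (fun u => (u, w))).card
            ≤ dg E S w := Finset.card_image_le
        omega
    _ ≤ ∑ w ∈ range n, 2 * (dg E S w - 1) :=
        Finset.sum_le_sum_of_subset (Finset.filter_subset _ _)
    _ = 2 * exc E S n := by rw [exc_eq, Finset.mul_sum]

theorem branch_lower {E : Finset (ℕ × ℕ)} {m n M : ℕ} (hE : E ⊆ cols m n) {S : Finset ℕ}
    (hS : S ⊆ range m) (Br : Finset (ℕ × ℕ)) (hBr : Br ⊆ E) (hBrS : ∀ e ∈ Br, e.1 ∈ S)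
    (hM : ∀ e ∈ Br, M ≤ (up E {e.2} n).card) :
    (Br.card - 2 * exc E S n) * M ≤ (up E S n).card := by
  classical
  -- basic facts on edges of Br
  have hcol : ∀ e ∈ Br, e.1 < e.2 ∧ m ≤ e.2 ∧ e.2 < n := fun e he => mem_cols.mp (hE (hBr he))
  have haS : ∀ e ∈ Br, e.1 ∈ up E S e.2 := fun e he => mem_up_of_mem (hBrS e he) (hcol e he).1
  have hzS : ∀ e ∈ Br, e.2 ∈ up E S (e.2 + 1) := fun e he =>
    mem_up_of_edge (haS e he) (hBr he) (Nat.lt_succ_self _)
  have ham : ∀ e ∈ Br, e.1 < m := fun e he => Finset.mem_range.mp (hS (hBrS e he))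
  let bad : ℕ × ℕ → Prop := fun e => ∃ w ∈ up E {e.2} n, 2 ≤ dg E S w
  -- same head, different tails: the head is bad
  have hsame : ∀ e ∈ Br, ∀ e' ∈ Br, e ≠ e' → e.2 = e'.2 → 2 ≤ dg E S e.2 := by
    intro e he e' he' hne h2
    refine two_le_dg (a := e.1) (b := e'.1) ?_ (haS e he) (by rw [h2]; exact haS e' he')
      (hBr he) (by rw [h2]; exact hBr he')
    intro h
    exact hne (Prod.ext h h2)
  have hself : ∀ e ∈ Br, e.2 ∈ up E {e.2} n := fun e he =>
    mem_up_of_mem (Finset.mem_singleton_self _) (hcol e he).2.2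
  -- unclean edges
  have hmap : ∀ e ∈ Br.filter bad, ∃ f : ℕ × ℕ, f ∈ badE E S ∧ f.2 ∈ up E {e.2} n ∧
      (∀ w ∈ up E {e.2} n, 2 ≤ dg E S w → f.2 ≤ w) ∧
      ((f.2 = e.2 ∧ f.1 = e.1) ∨ (f.2 ≠ e.2 ∧ f.1 ∈ up E {e.2} f.2)) := by
    intro e he
    obtain ⟨he1, he2⟩ := Finset.mem_filter.mp he
    have hex : ∃ w, w ∈ up E {e.2} n ∧ 2 ≤ dg E S w := he2
    let w := Nat.find hex
    have hw : w ∈ up E {e.2} n ∧ 2 ≤ dg E S w := Nat.find_spec hex
    have hmin : ∀ w' ∈ up E {e.2} n, 2 ≤ dg E S w' → w ≤ w' := fun w' h1 h2 =>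
      Nat.find_min' hex ⟨h1, h2⟩
    rcases (mem_up_iff.mp hw.1).2 with h1 | ⟨x, hx, hxw⟩
    · rw [Finset.mem_singleton] at h1
      refine ⟨(e.1, w), ?_, hw.1, hmin, Or.inl ⟨h1, rfl⟩⟩
      unfold badE
      rw [Finset.mem_filter]
      refine ⟨?_, ?_, hw.2⟩
      · rw [h1]; exact hBr he1
      · simp only; rw [h1]; exact haS e he1
    · refine ⟨(x, w), ?_, hw.1, hmin, Or.inr ⟨?_, hx⟩⟩
      · unfold badE
        rw [Finset.mem_filter]
        exact ⟨hxw, up_trans (hzS e he1) _ hx, hw.2⟩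
      · have h3 := up_ge hx
        have h4 := lt_of_mem_up hx
        simp only
        omega
  choose! f hf1 hf2 hf3 hf4 using hmap
  have hcard1 : (Br.filter bad).card ≤ (badE E S).card := by
    refine Finset.card_le_card_of_injOn f (fun e he => hf1 e he) ?_
    intro e he e' he' hff
    rw [Finset.mem_coe] at he he'
    by_contra hne
    have heB := (Finset.mem_filter.mp he).1
    have heB' := (Finset.mem_filter.mp he').1
    by_cases h2 : e.2 = e'.2
    · have hb := hsame e heB e' heB' hne h2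
      have h5 := hf3 e he e.2 (hself e heB) hb
      have h6 := up_ge (hf2 e he)
      have h7 : (f e).2 = e.2 := le_antisymm h5 h6
      have h8 : (f e).1 = e.1 := by
        rcases hf4 e he with h | h
        · exact h.2
        · exact absurd h7 h.1
      have h9 : (f e').1 = e'.1 := by
        rcases hf4 e' he' with h | h
        · exact h.2
        · exact absurd (by rw [← hff, h7, h2]) h.1
      exact hne (Prod.ext (by rw [← h8, ← h9, hff]) h2)
    · rcases hf4 e he with ⟨h3, h4⟩ | ⟨h3, h4⟩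
      · rcases hf4 e' he' with ⟨h5, h6⟩ | ⟨h5, h6⟩
        · exact h2 (by rw [← h3, ← h5, hff])
        · have h7 := up_ge h6
          rw [← hff, h4] at h7
          have := ham e heB
          have := (hcol e' heB').2.1
          omega
      · rcases hf4 e' he' with ⟨h5, h6⟩ | ⟨h5, h6⟩
        · have h7 := up_ge h4
          rw [hff, h6] at h7
          have := ham e' heB'
          have := (hcol e heB).2.1
          omega
        · rw [← hff] at h6
          obtain ⟨w, hw, hw1, _, hw3⟩ := key_fact hE hS (hBr heB) (hBr heB') (hBrS e heB)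
            (hBrS e' heB') h2 (f e).1 h4 h6
          have h8 := lt_of_mem_up h4
          have h9 : w ∈ up E {e.2} n := up_mono _ _ (lt_of_mem_up (hf2 e he)).le hw1
          have := hf3 e he w h9 hw3
          omega
  -- clean edges
  have hcard2 : (Br.filter (fun e => ¬ bad e)).card * M ≤ (up E S n).card := by
    have hdisj : ∀ e ∈ Br.filter (fun e => ¬ bad e), ∀ e' ∈ Br.filter (fun e => ¬ bad e),
        e ≠ e' → Disjoint (up E {e.2} n) (up E {e'.2} n) := by
      intro e he e' he' hne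
      obtain ⟨heB, hc⟩ := Finset.mem_filter.mp he
      obtain ⟨heB', hc'⟩ := Finset.mem_filter.mp he'
      rw [Finset.disjoint_left]
      intro u hu hu'
      by_cases h2 : e.2 = e'.2
      · exact hc ⟨e.2, hself e heB, hsame e heB e' heB' hne h2⟩
      · obtain ⟨w, _, hw1, _, hw3⟩ := key_fact hE hS (hBr heB) (hBr heB') (hBrS e heB)
            (hBrS e' heB') h2 u hu hu'
        exact hc ⟨w, hw1, hw3⟩
    calc (Br.filter (fun e => ¬ bad e)).card * M
        = ∑ e ∈ Br.filter (fun e => ¬ bad e), M := by rw [Finset.sum_const, smul_eq_mul]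
      _ ≤ ∑ e ∈ Br.filter (fun e => ¬ bad e), (up E {e.2} n).card :=
          Finset.sum_le_sum (fun e he => hM e (Finset.mem_filter.mp he).1)
      _ = ((Br.filter (fun e => ¬ bad e)).biUnion (fun e => up E {e.2} n)).card :=
          (Finset.card_biUnion hdisj).symm
      _ ≤ (up E S n).card := by
          refine Finset.card_le_card ?_
          rw [Finset.biUnion_subset]
          intro e he
          exact up_trans (hzS e (Finset.mem_filter.mp he).1) n
  have hsplit := Finset.card_filter_add_card_filter_not (s := Br) bad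
  have h1 := card_badE hE S
  refine le_trans (Nat.mul_le_mul_right M ?_) hcard2
  omega

end Pool.Agent.Helper65
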