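import Mathlib

set_option autoImplicit false

open Set Filter Topology

namespace Pool.Agent.Helper91

/-- A `C^1` map which is injective on a nonempty open subset of a finite-dimensional real
normed space does not decrease the dimension. -/
theorem finrank_le_of_contDiffOn_injOn
    {E F : Type*} [NormedAddCommGroup E] [NormedSpace ℝ E] [FiniteDimensional ℝ E]
    [NormedAddCommGroup F] [NormedSpace ℝ F] [FiniteDimensional ℝ F]
    {f : E → F} {U : Set E} (hU : IsOpen U) (hne : U.Nonempty)
    (hf : ContDiffOn ℝ 1 f U) (hinj : InjOn f U) :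
    Module.finrank ℝ E ≤ Module.finrank ℝ F := by
  classical
  have : CompleteSpace E := FiniteDimensional.complete ℝ E
  have : CompleteSpace F := FiniteDimensional.complete ℝ F
  by_contra hlt
  push Not at hlt
  -- the rank function
  set R : E → ℕ := fun x => Module.finrank ℝ (LinearMap.range (fderiv ℝ f x).toLinearMap) with hR
  have hRle : ∀ x, R x ≤ Module.finrank ℝ F := fun x => Submodule.finrank_le _
  -- choose a point of maximal rank
  obtain ⟨x0, hx0U, hmax⟩ : ∃ x0 ∈ U, ∀ x ∈ U, R x ≤ R x0 := by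
    have hbdd : BddAbove (R '' U) := ⟨Module.finrank ℝ F, by rintro _ ⟨x, -, rfl⟩; exact hRle x⟩
    have hmem := Nat.sSup_mem (hne.image R) hbdd
    obtain ⟨x0, hx0, hx0'⟩ := hmem
    exact ⟨x0, hx0, fun x hx => hx0' ▸ le_csSup hbdd (mem_image_of_mem R hx)⟩
  set L : E →L[ℝ] F := fderiv ℝ f x0 with hL
  set R0 : Submodule ℝ F := LinearMap.range L.toLinearMap with hR0
  obtain ⟨P, hP⟩ : R0.ClosedComplemented := Submodule.ClosedComplemented.of_finiteDimensional R0
  have hfx0 : ContDiffAt ℝ 1 f x0 := hf.contDiffAt (hU.mem_nhds hx0U)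
  have hstrict : HasStrictFDerivAt f L x0 := hfx0.hasStrictFDerivAt one_ne_zero
  set g : E → R0 := fun x => P (f x) with hg
  set g' : E →L[ℝ] R0 := P.comp L with hg'
  have hgstrict : HasStrictFDerivAt g g' x0 := P.hasStrictFDerivAt.comp x0 hstrict
  have hsurj : Function.Surjective g' := by
    rintro ⟨y, ⟨x, rfl⟩⟩
    refine ⟨x, ?_⟩
    have := hP ⟨L x, ⟨x, rfl⟩⟩
    simpa [hg'] using this
  have hrange : g'.range = ⊤ := by
    rw [eq_top_iff]
    intro y _
    obtain ⟨x, hx⟩ := hsurj y
    exact ⟨x, hx⟩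
  have : CompleteSpace R0 := FiniteDimensional.complete ℝ R0
  have hker : g'.ker.ClosedComplemented := Submodule.ClosedComplemented.of_finiteDimensional _
  set φ := HasStrictFDerivAt.implicitFunctionDataOfComplemented g g' hgstrict hrange hker with hφ
  set e := φ.toOpenPartialHomeomorph with he
  have hφpt : φ.pt = x0 := rfl
  have hφl : φ.leftFun = g := rfl
  have hr0 : φ.rightFun x0 = 0 := by
    simp [hφ]
  have hpt : x0 ∈ e.source := φ.pt_mem_toOpenPartialHomeomorph_source
  have hex0 : e x0 = (g x0, 0) := by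
    rw [he, ImplicitFunctionData.toOpenPartialHomeomorph_apply, hφl, hr0]
  have hmemt : (g x0, (0 : g'.ker)) ∈ e.target := by
    rw [← hex0]; exact e.map_source hpt
  -- the curve
  set γ : g'.ker → E := fun z => e.symm (g x0, z) with hγ
  have hγ0 : γ 0 = x0 := by
    rw [hγ]; simp only; rw [← hex0]; exact e.left_inv hpt
  have hcd : ContDiffAt ℝ 1 γ 0 := by
    have h1 : ContDiffAt ℝ 1 φ.implicitFunction.uncurry (φ.prodFun φ.pt) := by
      apply ImplicitFunctionData.contDiffAt_implicitFunction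
      · show ContDiffAt ℝ 1 g x0
        exact P.contDiff.contDiffAt.comp x0 hfx0
      · show ContDiffAt ℝ 1 φ.rightFun x0
        simp only [hφ, HasStrictFDerivAt.implicitFunctionDataOfComplemented]
        fun_prop
      · exact one_ne_zero
    have h2 : φ.prodFun φ.pt = (g x0, 0) := hex0
    rw [h2] at h1
    have h3 : ContDiffAt ℝ 1 (fun z : g'.ker => (g x0, z)) 0 := by fun_prop
    exact ContDiffAt.comp (0 : g'.ker) h1 h3
  have hγcont : ContinuousAt γ 0 := hcd.continuousAt
  -- eventual properties near 0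
  have ev1 : ∀ᶠ z in 𝓝 (0 : g'.ker), ContDiffAt ℝ 1 γ z := hcd.eventually (by simp)
  have ev2 : ∀ᶠ z in 𝓝 (0 : g'.ker), γ z ∈ U := by
    apply hγcont.eventually_mem
    rw [hγ0]; exact hU.mem_nhds hx0U
  have ev3 : ∀ᶠ z in 𝓝 (0 : g'.ker), (g x0, z) ∈ e.target := by
    have hc : ContinuousAt (fun z : g'.ker => (g x0, z)) 0 := by fun_prop
    exact hc.eventually_mem (e.open_target.mem_nhds hmemt)
  have ev4 : ∀ᶠ z in 𝓝 (0 : g'.ker), Function.Surjective (P.comp (fderiv ℝ f (γ z))) := by
    obtain ⟨s, hs⟩ : ∃ s : R0 →ₗ[ℝ] E, g'.toLinearMap.comp s = LinearMap.id :=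
      g'.toLinearMap.exists_rightInverse_of_surjective hrange
    set S : R0 →L[ℝ] E := LinearMap.toContinuousLinearMap s with hS
    have hc : ContinuousAt (fun x => (P.comp (fderiv ℝ f x)).comp S) x0 := by
      have h1 : ContinuousAt (fderiv ℝ f) x0 := hfx0.continuousAt_fderiv one_ne_zero
      have h2 : Continuous fun T : E →L[ℝ] F => (P.comp T).comp S := by fun_prop
      exact h2.continuousAt.comp h1
    have hc2 : ContinuousAt (fun z => (P.comp (fderiv ℝ f (γ z))).comp S) 0 := by
      have : ContinuousAt (fun x => (P.comp (fderiv ℝ f x)).comp S) (γ 0) := by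
        rw [hγ0]; exact hc
      exact this.comp hγcont
    have hid : (P.comp (fderiv ℝ f (γ 0))).comp S = ContinuousLinearMap.id ℝ R0 := by
      rw [hγ0]
      ext y
      have := congrArg (fun A => A y) hs
      exact congrArg Subtype.val this
    have hu : ∀ᶠ z in 𝓝 (0 : g'.ker), IsUnit ((P.comp (fderiv ℝ f (γ z))).comp S) := by
      have hmem : {T : R0 →L[ℝ] R0 | IsUnit T} ∈ 𝓝 ((P.comp (fderiv ℝ f (γ 0))).comp S) := by
        rw [hid]
        exact (Units.isOpen (R := R0 →L[ℝ] R0)).mem_nhds isUnit_one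
      exact hc2.eventually hmem
    filter_upwards [hu] with z hz
    obtain ⟨u, hu⟩ := hz
    intro y
    refine ⟨S ((↑u⁻¹ : R0 →L[ℝ] R0) y), ?_⟩
    have h1 : ((P.comp (fderiv ℝ f (γ z))).comp S) ((↑u⁻¹ : R0 →L[ℝ] R0) y) = y := by
      rw [← hu]
      have := congrArg (fun A : R0 →L[ℝ] R0 => A y) u.mul_inv
      exact this
    exact h1
  obtain ⟨ε, hε, hball⟩ := Metric.eventually_nhds_iff_ball.1
    ((ev1.and ev2).and (ev3.and ev4))
  have hconst : ∀ z ∈ Metric.ball (0 : g'.ker) ε, g (γ z) = g x0 := by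
    intro z hz
    have h3 := (hball z hz).2.1
    have := e.right_inv h3
    have h4 := congrArg Prod.fst this
    rw [he, ImplicitFunctionData.toOpenPartialHomeomorph_apply] at h4
    exact h4
  -- derivative of f ∘ γ vanishes
  have hderiv : ∀ z ∈ Metric.ball (0 : g'.ker) ε, fderiv ℝ (f ∘ γ) z = 0 := by
    intro z hz
    obtain ⟨⟨hz1, hz2⟩, hz3, hz4⟩ := hball z hz
    have hfd : DifferentiableAt ℝ f (γ z) :=
      (hf.contDiffAt (hU.mem_nhds hz2)).differentiableAt one_ne_zero
    have hγd : DifferentiableAt ℝ γ z := hz1.differentiableAt one_ne_zero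
    rw [fderiv_comp z hfd hγd]
    have hPz : (P.comp (fderiv ℝ f (γ z))).comp (fderiv ℝ γ z) = 0 := by
      have h1 : fderiv ℝ (fun z => g (γ z)) z = 0 := by
        have : (fun z => g (γ z)) =ᶠ[𝓝 z] fun _ => g x0 := by
          filter_upwards [Metric.isOpen_ball.mem_nhds hz] with w hw using hconst w hw
        rw [this.fderiv_eq]; simp
      have h2 : HasFDerivAt (fun z => g (γ z)) ((P.comp (fderiv ℝ f (γ z))).comp (fderiv ℝ γ z)) z :=
        (P.hasFDerivAt.comp (γ z) hfd.hasFDerivAt).comp z hγd.hasFDerivAt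
      rw [← h2.fderiv]; exact h1
    -- injectivity of P on the range
    set T := fderiv ℝ f (γ z) with hT
    have hrk : Module.finrank ℝ (LinearMap.range T.toLinearMap) ≤ Module.finrank ℝ R0 :=
      hmax _ hz2
    let Q : LinearMap.range T.toLinearMap →ₗ[ℝ] R0 := P.toLinearMap.comp (Submodule.subtype _)
    have hQs : Function.Surjective Q := by
      intro y
      obtain ⟨x, hx⟩ := hz4 y
      exact ⟨⟨T x, ⟨x, rfl⟩⟩, hx⟩
    have hle2 : Module.finrank ℝ R0 ≤ Module.finrank ℝ (LinearMap.range T.toLinearMap) :=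
      LinearMap.finrank_le_finrank_of_surjective hQs
    have hQi : Function.Injective Q :=
      (LinearMap.injective_iff_surjective_of_finrank_eq_finrank (le_antisymm hrk hle2)).2 hQs
    ext v
    have h5 : Q ⟨T (fderiv ℝ γ z v), ⟨_, rfl⟩⟩ = 0 := by
      have := congrArg (fun A => A v) hPz
      exact this
    have h6 := hQi (h5.trans (map_zero Q).symm)
    have h7 := congrArg Subtype.val h6
    exact h7
  have hfγconst : ∀ z ∈ Metric.ball (0 : g'.ker) ε, f (γ z) = f (γ 0) := by
    intro z hz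
    have hd : DifferentiableOn ℝ (f ∘ γ) (Metric.ball (0 : g'.ker) ε) := by
      intro w hw
      obtain ⟨⟨hz1, hz2⟩, hz3, hz4⟩ := hball w hw
      have hfd : DifferentiableAt ℝ f (γ w) :=
        (hf.contDiffAt (hU.mem_nhds hz2)).differentiableAt one_ne_zero
      have hγd : DifferentiableAt ℝ γ w := hz1.differentiableAt one_ne_zero
      exact (hfd.comp w hγd).differentiableWithinAt
    have := Metric.isOpen_ball.is_const_of_fderiv_eq_zero
      ((convex_ball (0 : g'.ker) ε).isPreconnected) hd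
      (fun w hw => hderiv w hw) hz (Metric.mem_ball_self hε)
    exact this
  -- the kernel is nontrivial
  have hkpos : 0 < Module.finrank ℝ g'.ker := by
    have h1 := LinearMap.finrank_range_add_finrank_ker g'.toLinearMap
    have h2 : Module.finrank ℝ (LinearMap.range g'.toLinearMap) ≤ Module.finrank ℝ F :=
      (Submodule.finrank_le _).trans (Submodule.finrank_le _)
    have h3 : Module.finrank ℝ (LinearMap.ker g'.toLinearMap) = Module.finrank ℝ g'.ker := rfl
    omega
  have : Nontrivial g'.ker := Module.finrank_pos_iff.1 hkpos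
  obtain ⟨v, hv⟩ := exists_ne (0 : g'.ker)
  set w : g'.ker := (ε / 2 / ‖v‖) • v with hw
  have hvn : 0 < ‖v‖ := norm_pos_iff.2 hv
  have hwn : ‖w‖ = ε / 2 := by
    rw [hw, norm_smul, Real.norm_eq_abs, abs_of_pos (by positivity)]
    field_simp
  have hwb : w ∈ Metric.ball (0 : g'.ker) ε := by
    rw [mem_ball_zero_iff, hwn]; linarith
  have hwne : w ≠ 0 := by
    intro h; rw [h, norm_zero] at hwn; linarith
  have h1 := hfγconst w hwb
  have h2 : γ w = γ 0 := hinj (hball w hwb).1.2 (hball 0 (Metric.mem_ball_self hε)).1.2 h1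
  have h3 : ((g x0, w) : R0 × g'.ker) = (g x0, 0) :=
    e.symm.injOn (hball w hwb).2.1 (hball 0 (Metric.mem_ball_self hε)).2.1 h2
  exact hwne (congrArg Prod.snd h3)

end Pool.Agent.Helper91
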