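import Mathlib

set_option autoImplicit false

open Set Filter Topology
open scoped Manifold ContDiff RealInnerProductSpace

noncomputable section

namespace Pool.Agent.Helper91

/-- `n`-dimensional Euclidean space. -/
abbrev V (n : ℕ) : Type := EuclideanSpace ℝ (Fin n)

/-- The model vector space of the Heisenberg group `H_{2n+1}`. -/
abbrev HE (n : ℕ) : Type := V n × V n × ℝ

/-- The Heisenberg group `H_{2n+1}` in exponential coordinates. -/
def Heis (n : ℕ) : Type := HE n

namespace Heis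

variable {n : ℕ}

instance : TopologicalSpace (Heis n) := inferInstanceAs (TopologicalSpace (HE n))
instance : ChartedSpace (HE n) (Heis n) := inferInstanceAs (ChartedSpace (HE n) (HE n))
instance : T2Space (Heis n) := inferInstanceAs (T2Space (HE n))
instance : SecondCountableTopology (Heis n) := inferInstanceAs (SecondCountableTopology (HE n))

/-- The multiplication of the Heisenberg group on the model space. -/
def mulFun (x y : HE n) : HE n :=
  (x.1 + y.1, x.2.1 + y.2.1, x.2.2 + y.2.2 + (⟪x.1, y.2.1⟫ - ⟪y.1, x.2.1⟫) / 2)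

instance : Mul (Heis n) := ⟨fun x y => mulFun x y⟩
instance : One (Heis n) := ⟨(0 : HE n)⟩
instance : Inv (Heis n) := ⟨fun x => -(show HE n from x)⟩

theorem mul_def (x y : Heis n) : x * y = mulFun x y := rfl
theorem one_def : (1 : Heis n) = (0 : HE n) := rfl
theorem inv_def (x : Heis n) : x⁻¹ = -(show HE n from x) := rfl

instance : Group (Heis n) where
  mul_assoc x y z := by
    rw [mul_def, mul_def, mul_def, mul_def]
    refine Prod.ext ?_ (Prod.ext ?_ ?_)
    · simp [mulFun, add_assoc]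
    · simp [mulFun, add_assoc]
    · simp only [mulFun, inner_add_left, inner_add_right]
      ring
  one_mul x := by
    rw [mul_def, one_def]
    refine Prod.ext ?_ (Prod.ext ?_ ?_) <;> simp [mulFun]
  mul_one x := by
    rw [mul_def, one_def]
    refine Prod.ext ?_ (Prod.ext ?_ ?_) <;> simp [mulFun]
  inv_mul_cancel x := by
    rw [mul_def, inv_def, one_def]
    have h : ∀ y : HE n, mulFun (-y) y = 0 := by
      intro y
      refine Prod.ext ?_ (Prod.ext ?_ ?_) <;> simp [mulFun]
    exact h x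

theorem contDiff_mulFun : ContDiff ℝ ∞ (fun p : HE n × HE n => mulFun p.1 p.2) := by
  unfold mulFun
  refine ContDiff.prodMk (by fun_prop) (ContDiff.prodMk (by fun_prop) ?_)
  have h1 : ContDiff ℝ ∞ (fun p : HE n × HE n => ⟪p.1.1, p.2.2.1⟫) :=
    ContDiff.inner ℝ (by fun_prop) (by fun_prop)
  have h2 : ContDiff ℝ ∞ (fun p : HE n × HE n => ⟪p.2.1, p.1.2.1⟫) :=
    ContDiff.inner ℝ (by fun_prop) (by fun_prop)
  exact (ContDiff.add (by fun_prop) (by fun_prop)).add ((h1.sub h2).div_const 2)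

instance : IsManifold 𝓘(ℝ, HE n) ∞ (Heis n) :=
  inferInstanceAs (IsManifold 𝓘(ℝ, HE n) ∞ (HE n))

instance : LieGroup 𝓘(ℝ, HE n) ∞ (Heis n) where
  contMDiff_mul := by
    have h : ContMDiff 𝓘(ℝ, HE n × HE n) 𝓘(ℝ, HE n) ∞ (fun p : HE n × HE n => mulFun p.1 p.2) :=
      contDiff_mulFun.contMDiff
    rw [modelWithCornersSelf_prod, ← chartedSpaceSelf_prod] at h
    exact h
  contMDiff_inv := by
    have h : ContMDiff 𝓘(ℝ, HE n) 𝓘(ℝ, HE n) ∞ (fun p : HE n => -p) :=
      contDiff_neg.contMDiff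
    exact h
instance : LieGroup 𝓘(ℝ, HE n) (minSmoothness ℝ 3) (Heis n) :=
  LieGroup.of_le (n := ∞) (by
    rw [minSmoothness_of_isRCLikeNormedField]
    exact ENat.LEInfty.out)

/-- The derivative of left multiplication by `g`. -/
def leftDeriv (g : HE n) : HE n →L[ℝ] HE n :=
  (ContinuousLinearMap.fst ℝ (V n) (V n × ℝ)).prod
    (((ContinuousLinearMap.fst ℝ (V n) ℝ).comp (ContinuousLinearMap.snd ℝ (V n) (V n × ℝ))).prod
      ((ContinuousLinearMap.snd ℝ (V n) ℝ).comp (ContinuousLinearMap.snd ℝ (V n) (V n × ℝ)) +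
        (1 / 2 : ℝ) • ((innerSL ℝ g.1).comp ((ContinuousLinearMap.fst ℝ (V n) ℝ).comp
            (ContinuousLinearMap.snd ℝ (V n) (V n × ℝ))) -
          (innerSL ℝ g.2.1).comp (ContinuousLinearMap.fst ℝ (V n) (V n × ℝ)))))

theorem leftDeriv_apply (g v : HE n) :
    leftDeriv g v = (v.1, v.2.1, v.2.2 + (⟪g.1, v.2.1⟫ - ⟪v.1, g.2.1⟫) / 2) := by
  have h : ⟪g.2.1, v.1⟫ = ⟪v.1, g.2.1⟫ := real_inner_comm _ _
  simp only [leftDeriv, ContinuousLinearMap.prod_apply, ContinuousLinearMap.coe_fst',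
    ContinuousLinearMap.comp_apply, ContinuousLinearMap.coe_snd',
    add_apply, smul_apply, sub_apply,
    innerSL_apply_apply, smul_eq_mul, h]
  refine Prod.ext rfl (Prod.ext rfl ?_)
  simp only
  ring

theorem hasFDerivAt_mulFun (g x : HE n) : HasFDerivAt (fun y => mulFun g y) (leftDeriv g) x := by
  have h : (fun y => mulFun g y) = fun y => g + leftDeriv g y := by
    funext y
    rw [leftDeriv_apply]
    refine Prod.ext rfl (Prod.ext rfl ?_)
    simp only [mulFun, Prod.snd_add]
    ring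
  rw [h]
  exact (leftDeriv g).hasFDerivAt.const_add g

theorem mulInvariantVectorField_eq (v : GroupLieAlgebra 𝓘(ℝ, HE n) (Heis n)) (g : Heis n) :
    mulInvariantVectorField v g = leftDeriv g v := by
  have h : HasMFDerivAt 𝓘(ℝ, HE n) 𝓘(ℝ, HE n) (fun y : HE n => mulFun g y) (0 : HE n)
      (leftDeriv g) := (hasFDerivAt_mulFun g 0).hasMFDerivAt
  have h2 : mfderiv 𝓘(ℝ, HE n) 𝓘(ℝ, HE n) (fun y : HE n => mulFun g y) (0 : HE n) = leftDeriv g :=
    h.mfderiv
  exact congrArg (fun T : HE n →L[ℝ] HE n => T v) h2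

theorem leftDeriv_swap (g w : HE n) :
    leftDeriv g w = w + ((ContinuousLinearMap.id ℝ (HE n)) - leftDeriv w) g := by
  rw [sub_apply, leftDeriv_apply, leftDeriv_apply]
  refine Prod.ext ?_ (Prod.ext ?_ ?_)
  · simp
  · simp
  · simp only [ContinuousLinearMap.id_apply, Prod.snd_add, Prod.snd_sub]
    ring

theorem fderiv_leftDeriv (w x : HE n) :
    fderiv ℝ (fun g => leftDeriv g w) x = (ContinuousLinearMap.id ℝ (HE n)) - leftDeriv w := by
  have h : (fun g => leftDeriv g w) =
      fun g => w + ((ContinuousLinearMap.id ℝ (HE n)) - leftDeriv w) g := by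
    funext g; exact leftDeriv_swap g w
  rw [h]
  exact (((ContinuousLinearMap.id ℝ (HE n)) - leftDeriv w).hasFDerivAt.const_add w).fderiv

theorem lieBracket_leftDeriv (v w : HE n) :
    VectorField.lieBracket ℝ (fun g : HE n => leftDeriv g v) (fun g : HE n => leftDeriv g w) 0 =
      (0, 0, ⟪v.1, w.2.1⟫ - ⟪w.1, v.2.1⟫) := by
  rw [VectorField.lieBracket_eq]
  simp only [fderiv_leftDeriv]
  rw [sub_apply, sub_apply, leftDeriv_apply, leftDeriv_apply, leftDeriv_apply, leftDeriv_apply]
  refine Prod.ext ?_ (Prod.ext ?_ ?_)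
  · simp
  · simp
  · simp only [ContinuousLinearMap.id_apply, Prod.snd_sub, Prod.fst_zero, Prod.snd_zero,
      inner_zero_left, inner_zero_right]
    ring

theorem mlieBracket_self_eq {E : Type*} [NormedAddCommGroup E] [NormedSpace ℝ E]
    (A B : Π x : E, TangentSpace 𝓘(ℝ, E) x) (x : E) :
    VectorField.mlieBracket 𝓘(ℝ, E) A B x = VectorField.lieBracket ℝ A B x := by
  rw [← VectorField.mlieBracketWithin_univ, VectorField.mlieBracketWithin_eq_lieBracketWithin]
  exact congrFun (VectorField.lieBracketWithin_univ (𝕜 := ℝ) (V := A) (W := B)) x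

theorem mlieBracket_leftDeriv (v w : HE n) :
    VectorField.mlieBracket 𝓘(ℝ, HE n) (M := HE n) (fun g : HE n => leftDeriv g v)
      (fun g : HE n => leftDeriv g w) (0 : HE n) =
      (0, 0, ⟪v.1, w.2.1⟫ - ⟪w.1, v.2.1⟫) := by
  rw [← lieBracket_leftDeriv]
  exact mlieBracket_self_eq (E := HE n) (fun g => leftDeriv g v) (fun g => leftDeriv g w) 0

/-- The Lie bracket of the Heisenberg Lie algebra. -/
theorem bracket_eq (v w : GroupLieAlgebra 𝓘(ℝ, HE n) (Heis n)) :
    ⁅v, w⁆ = ((0, 0, ⟪(show HE n from v).1, (show HE n from w).2.1⟫ -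
      ⟪(show HE n from w).1, (show HE n from v).2.1⟫) : HE n) := by
  rw [GroupLieAlgebra.bracket_def]
  have hv : mulInvariantVectorField v = fun g : Heis n => leftDeriv g v :=
    funext (mulInvariantVectorField_eq v)
  have hw : mulInvariantVectorField w = fun g : Heis n => leftDeriv g w :=
    funext (mulInvariantVectorField_eq w)
  rw [hv, hw]
  exact mlieBracket_leftDeriv v w

/-- The Heisenberg Lie algebra is two-step nilpotent. -/
theorem bracket_bracket (u v w : GroupLieAlgebra 𝓘(ℝ, HE n) (Heis n)) : ⁅u, ⁅v, w⁆⁆ = 0 := by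
  rw [bracket_eq u, bracket_eq v w]
  refine Prod.ext ?_ (Prod.ext ?_ ?_)
  · rfl
  · rfl
  · show ⟪(show HE n from u).1, (0 : V n)⟫ - ⟪(0 : V n), (show HE n from u).2.1⟫ = (0 : ℝ)
    simp

instance : LieRing.IsNilpotent (GroupLieAlgebra 𝓘(ℝ, HE n) (Heis n)) := by
  set L := GroupLieAlgebra 𝓘(ℝ, HE n) (Heis n)
  have h1 : LieModule.lowerCentralSeries ℝ L L 1 ≤ LieModule.maxTrivSubmodule ℝ L L := by
    rw [LieModule.lowerCentralSeries_succ, LieSubmodule.lie_le_iff]
    intro x _ y _
    rw [LieModule.mem_maxTrivSubmodule]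
    intro z
    exact bracket_bracket z x y
  have h2 : LieModule.lowerCentralSeries ℝ L L 2 = ⊥ := by
    rw [LieModule.lowerCentralSeries_succ, eq_bot_iff, LieSubmodule.lie_le_iff]
    intro x _ y hy
    have := (LieModule.mem_maxTrivSubmodule (R := ℝ) (L := L) (M := L) y).1 (h1 hy) x
    rw [this]
    exact zero_mem _
  exact LieModule.IsNilpotent.mk (R := ℝ) (L := L) (M := L) h2

/-- Every Cartan subalgebra of the Heisenberg Lie algebra is the whole algebra. -/
theorem cartan_eq_top (H : LieSubalgebra ℝ (GroupLieAlgebra 𝓘(ℝ, HE n) (Heis n)))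
    (hH : H.IsCartanSubalgebra) : H = ⊤ := by
  set L := GroupLieAlgebra 𝓘(ℝ, HE n) (Heis n)
  have hc : ∀ x y : L, ⁅x, y⁆ ∈ H := by
    intro x y
    have : ⁅x, y⁆ ∈ H.normalizer := by
      rw [LieSubalgebra.mem_normalizer_iff']
      intro z _
      rw [bracket_bracket]
      exact H.zero_mem
    rwa [hH.self_normalizing] at this
  rw [eq_top_iff]
  intro x _
  have : x ∈ H.normalizer := by
    rw [LieSubalgebra.mem_normalizer_iff']
    intro z _
    exact hc z x
  rwa [hH.self_normalizing] at this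

theorem quot_left (a a' : V n) :
    mulFun ((a, 0, 0) : HE n) (-((a', 0, 0) : HE n)) = (a - a', 0, 0) := by
  refine Prod.ext ?_ (Prod.ext ?_ ?_) <;> simp [mulFun, sub_eq_add_neg]

theorem quot_right (b b' : V n) :
    mulFun ((0, b, 0) : HE n) (-((0, b', 0) : HE n)) = (0, b - b', 0) := by
  refine Prod.ext ?_ (Prod.ext ?_ ?_) <;> simp [mulFun, sub_eq_add_neg]

theorem quot_diag (c c' : V n) :
    mulFun ((c, c, 0) : HE n) (-((c', c', 0) : HE n)) = (c - c', c - c', 0) := by
  refine Prod.ext ?_ (Prod.ext ?_ ?_)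
  · simp [mulFun, sub_eq_add_neg]
  · simp [mulFun, sub_eq_add_neg]
  · have : ⟪c', c⟫ = ⟪c, c'⟫ := real_inner_comm _ _
    simp [mulFun, this]

/-- The key computation: three transversal Lagrangian subgroups with definite Maslov form. -/
theorem tpp_core (a b c : V n)
    (h : mulFun (mulFun ((a, 0, 0) : HE n) ((0, b, 0) : HE n)) ((c, c, 0) : HE n) = 0) :
    a = 0 ∧ b = 0 ∧ c = 0 := by
  have h1 : a + c = 0 := by
    have := congrArg Prod.fst h
    simpa [mulFun] using this
  have h2 : b + c = 0 := by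
    have := congrArg (fun x => x.2.1) h
    simpa [mulFun] using this
  have h3 : ⟪a, b⟫ / 2 + (⟪a, c⟫ - ⟪c, b⟫) / 2 = 0 := by
    have := congrArg (fun x => x.2.2) h
    simpa [mulFun] using this
  have ha : a = -c := eq_neg_of_add_eq_zero_left h1
  have hb : b = -c := eq_neg_of_add_eq_zero_left h2
  have hc : c = 0 := by
    rw [ha, hb] at h3
    simp only [inner_neg_left, inner_neg_right] at h3
    have : ⟪c, c⟫ = (0 : ℝ) := by linarith
    exact inner_self_eq_zero.1 this
  refine ⟨?_, ?_, hc⟩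
  · rw [ha, hc, neg_zero]
  · rw [hb, hc, neg_zero]

end Heis

end Pool.Agent.Helper91
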