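import Mathlib

set_option autoImplicit false

open Set Filter Topology Manifold
open scoped Manifold ContDiff

noncomputable section

namespace Pool.Agent.Helper91

/-- An injective linear map between finite-dimensional real normed spaces is a smooth embedding. -/
theorem isSmoothEmbedding_of_injective_linear {E₁ E₂ : Type*} [NormedAddCommGroup E₁]
    [NormedSpace ℝ E₁] [FiniteDimensional ℝ E₁] [NormedAddCommGroup E₂] [NormedSpace ℝ E₂]
    [FiniteDimensional ℝ E₂] (L : E₁ →ₗ[ℝ] E₂) (hL : Function.Injective L) :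
    IsSmoothEmbedding 𝓘(ℝ, E₁) 𝓘(ℝ, E₂) ∞ (fun x => L x) := by
  refine ⟨?_, ?_⟩
  · obtain ⟨q, hq⟩ := (LinearMap.range L).exists_isCompl
    let e0 : (E₁ × q) ≃ₗ[ℝ] E₂ :=
      ((LinearEquiv.ofInjective L hL).prodCongr (LinearEquiv.refl ℝ q)).trans
        (Submodule.prodEquivOfIsCompl (LinearMap.range L) q hq)
    let e : (E₁ × q) ≃L[ℝ] E₂ := e0.toContinuousLinearEquiv
    have : IsImmersionOfComplement q 𝓘(ℝ, E₁) 𝓘(ℝ, E₂) ∞ (fun x => L x) := by
      intro x
      refine IsImmersionAtOfComplement.mk_of_continuousAt ?_ e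
        (OpenPartialHomeomorph.refl E₁) (OpenPartialHomeomorph.refl E₂) (by simp) (by simp)
        (IsManifold.subset_maximalAtlas (by simp)) (IsManifold.subset_maximalAtlas (by simp)) ?_
      · exact (LinearMap.continuous_of_finiteDimensional L).continuousAt
      · intro y _
        simp [e, e0]
    exact this.isImmersion
  · exact (LinearMap.isClosedEmbedding_of_injective (LinearMap.ker_eq_bot.2 hL)).isEmbedding

end Pool.Agent.Helper91
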