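import Mathlib
import Pool.Agent.Helper91.DimInj

set_option autoImplicit false

open Set Filter Topology
open scoped Manifold ContDiff

namespace Pool.Agent.Helper91

/-- A `C^1` injective map between boundaryless finite-dimensional real manifolds does not
decrease the dimension. -/
theorem finrank_le_of_contMDiff_injective
    {E F : Type*} [NormedAddCommGroup E] [NormedSpace ℝ E] [FiniteDimensional ℝ E]
    [NormedAddCommGroup F] [NormedSpace ℝ F] [FiniteDimensional ℝ F]
    {H K : Type*} [TopologicalSpace H] [TopologicalSpace K]
    (I : ModelWithCorners ℝ E H) (J : ModelWithCorners ℝ F K) [I.Boundaryless] [J.Boundaryless]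
    {M N : Type*} [TopologicalSpace M] [ChartedSpace H M] [TopologicalSpace N] [ChartedSpace K N]
    [IsManifold I 1 M] [IsManifold J 1 N]
    {f : M → N} (hf : ContMDiff I J 1 f) (hinj : Function.Injective f) (x : M) :
    Module.finrank ℝ E ≤ Module.finrank ℝ F := by
  have hcd := (contMDiff_iff.1 hf).2 x (f x)
  set U := (extChartAt I x).target ∩ (extChartAt I x).symm ⁻¹' (f ⁻¹' (extChartAt J (f x)).source)
    with hU
  have hopen : IsOpen U := by
    rw [hU]
    apply ContinuousOn.isOpen_inter_preimage (continuousOn_extChartAt_symm x)
      (isOpen_extChartAt_target x)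
    exact hf.continuous.isOpen_preimage _ (isOpen_extChartAt_source (f x))
  have hne : U.Nonempty := by
    refine ⟨extChartAt I x x, mem_extChartAt_target x, ?_⟩
    show f ((extChartAt I x).symm (extChartAt I x x)) ∈ (extChartAt J (f x)).source
    rw [extChartAt_to_inv]
    exact mem_extChartAt_source (f x)
  refine finrank_le_of_contDiffOn_injOn hopen hne hcd ?_
  intro u hu v hv huv
  have h1 : f ((extChartAt I x).symm u) = f ((extChartAt I x).symm v) :=
    (extChartAt J (f x)).injOn hu.2 hv.2 huv
  exact (extChartAt I x).symm.injOn hu.1 hv.1 (hinj h1)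

end Pool.Agent.Helper91
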